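import Mathlib

namespace Pool.Agent.Helper858.Leg

open MvPolynomial

/-- Legendre polynomials evaluated at `s`, by Bonnet's recurrence. -/
noncomputable def leg (s : ℝ) : ℕ → ℝ
  | 0 => 1
  | 1 => s
  | (k + 2) => ((2 * (k : ℝ) + 3) * s * leg s (k + 1) - ((k : ℝ) + 1) * leg s k) / ((k : ℝ) + 2)

abbrev P3 := MvPolynomial (Fin 3) ℝ

noncomputable def lin (y : Fin 3 → ℝ) : P3 := ∑ i, C (y i) * X i
noncomputable def qq : P3 := ∑ i, X i * X i
noncomputable def DD (y : Fin 3 → ℝ) (p : P3) : P3 := ∑ i, C (y i) * pderiv i p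
noncomputable def lap (p : P3) : P3 := ∑ i, pderiv i (pderiv i p)
noncomputable def eul (p : P3) : P3 := ∑ i, X i * pderiv i p

noncomputable def ZZ (y : Fin 3 → ℝ) : ℕ → P3
  | 0 => 1
  | 1 => lin y
  | (k + 2) => C (1 / ((k : ℝ) + 2)) *
      (C (2 * (k : ℝ) + 3) * (lin y * ZZ y (k + 1)) - C ((k : ℝ) + 1) * (qq * ZZ y k))

lemma eul_C_mul (a : ℝ) (p : P3) : eul (C a * p) = C a * eul p := by
  simp only [eul, Fin.sum_univ_three, pderiv_C_mul]; ring

lemma eul_sub (p r : P3) : eul (p - r) = eul p - eul r := by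
  simp only [eul, Fin.sum_univ_three, map_sub]; ring

lemma eul_mul (p r : P3) : eul (p * r) = eul p * r + p * eul r := by
  simp only [eul, Fin.sum_univ_three, pderiv_mul]; ring

lemma eul_lin (y : Fin 3 → ℝ) : eul (lin y) = lin y := by
  simp only [eul, lin, Fin.sum_univ_three, map_add, pderiv_C_mul]
  simp; ring

lemma eul_qq : eul qq = 2 * qq := by
  simp only [eul, qq, Fin.sum_univ_three, map_add, pderiv_mul]
  simp; ring

lemma DD_C_mul (y : Fin 3 → ℝ) (a : ℝ) (p : P3) : DD y (C a * p) = C a * DD y p := by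
  simp only [DD, Fin.sum_univ_three, pderiv_C_mul]; ring

lemma DD_sub (y : Fin 3 → ℝ) (p r : P3) : DD y (p - r) = DD y p - DD y r := by
  simp only [DD, Fin.sum_univ_three, map_sub]; ring

lemma DD_mul (y : Fin 3 → ℝ) (p r : P3) : DD y (p * r) = DD y p * r + p * DD y r := by
  simp only [DD, Fin.sum_univ_three, pderiv_mul]; ring

lemma DD_lin (y : Fin 3 → ℝ) (hy : ∑ i, y i ^ 2 = 1) : DD y (lin y) = 1 := by
  simp only [DD, lin, Fin.sum_univ_three, map_add, pderiv_C_mul] at *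
  simp
  rw [← C_mul, ← C_mul, ← C_mul, ← C_add, ← C_add, ← C_1]
  congr 1; linarith

lemma DD_qq (y : Fin 3 → ℝ) : DD y qq = 2 * lin y := by
  simp only [DD, qq, lin, Fin.sum_univ_three, map_add, pderiv_mul]
  simp; ring

lemma lap_C_mul (a : ℝ) (p : P3) : lap (C a * p) = C a * lap p := by
  simp only [lap, Fin.sum_univ_three, pderiv_C_mul]; ring

lemma lap_sub (p r : P3) : lap (p - r) = lap p - lap r := by
  simp only [lap, Fin.sum_univ_three, map_sub]; ring

lemma lap_lin_mul (y : Fin 3 → ℝ) (p : P3) : lap (lin y * p) = lin y * lap p + 2 * DD y p := by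
  simp only [lap, lin, DD, Fin.sum_univ_three, pderiv_mul, map_add]
  simp [Pi.single_apply]; ring

lemma lap_qq_mul (p : P3) : lap (qq * p) = 6 * p + 4 * eul p + qq * lap p := by
  simp only [lap, qq, eul, Fin.sum_univ_three, pderiv_mul, map_add]
  simp; ring

lemma eul_ZZ (y : Fin 3 → ℝ) : ∀ k : ℕ, eul (ZZ y k) = C (k : ℝ) * ZZ y k
  | 0 => by simp [ZZ, eul]
  | 1 => by simp [ZZ, eul_lin]
  | (k + 2) => by
    rw [ZZ, eul_C_mul, eul_sub, eul_C_mul, eul_C_mul, eul_mul, eul_mul, eul_lin, eul_qq,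
      eul_ZZ y (k + 1), eul_ZZ y k]
    push_cast
    simp only [map_add, map_one, map_ofNat]
    ring

lemma C_cancel (k : ℕ) : C ((k : ℝ) + 2) * C (1 / ((k : ℝ) + 2)) = (1 : P3) := by
  rw [← C_mul, mul_one_div_cancel (by positivity), C_1]

lemma DD_ZZ (y : Fin 3 → ℝ) (hy : ∑ i, y i ^ 2 = 1) : ∀ k : ℕ,
    DD y (ZZ y (k + 1)) = C ((k : ℝ) + 1) * ZZ y k
  | 0 => by simp [ZZ, DD_lin y hy]
  | 1 => by
    rw [ZZ, ZZ, ZZ, DD_C_mul, DD_sub, DD_C_mul, DD_C_mul, DD_mul, DD_mul, DD_qq, DD_lin y hy]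
    have : DD y (1 : P3) = 0 := by simp [DD]
    rw [this]
    simp only [CharP.cast_eq_zero, mul_zero, zero_add, mul_one, Nat.cast_one]
    have h3 : (C 3 : P3) = 3 := map_ofNat C 3
    have h2 : (C (1 / 2) : P3) * 2 = 1 := by
      rw [← map_ofNat C 2, ← C_mul]; norm_num
    have h4 : (C (1 + 1) : P3) = 2 := by
      rw [← map_ofNat C 2]; norm_num
    have z1 : ZZ y 1 = lin y := rfl
    simp only [z1, DD_lin y hy, h3, h4, C_1]
    linear_combination (2 * lin y) * h2
  | (k + 2) => by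
    have ih1 := DD_ZZ y hy (k + 1)
    have ih0 := DD_ZZ y hy k
    have e1 : ZZ y (k + 1 + 2) = C (1 / (((k + 1 : ℕ) : ℝ) + 2)) *
      (C (2 * ((k + 1 : ℕ) : ℝ) + 3) * (lin y * ZZ y (k + 1 + 1))
        - C (((k + 1 : ℕ) : ℝ) + 1) * (qq * ZZ y (k + 1))) := by rw [ZZ]
    have e0 : ZZ y (k + 2) = C (1 / ((k : ℝ) + 2)) *
      (C (2 * (k : ℝ) + 3) * (lin y * ZZ y (k + 1)) - C ((k : ℝ) + 1) * (qq * ZZ y k)) := by
      rw [ZZ]
    have e0' : C ((k : ℝ) + 2) * ZZ y (k + 2) =
      (C (2 * (k : ℝ) + 3) * (lin y * ZZ y (k + 1)) - C ((k : ℝ) + 1) * (qq * ZZ y k)) := by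
      rw [e0, ← mul_assoc, C_cancel, one_mul]
    have hc := C_cancel (k + 1)
    show DD y (ZZ y (k + 1 + 2)) = C (((k + 2 : ℕ) : ℝ) + 1) * ZZ y (k + 2)
    rw [e1, DD_C_mul, DD_sub, DD_C_mul, DD_C_mul, DD_mul, DD_mul, DD_qq, DD_lin y hy]
    show _ * (_ * (1 * ZZ y (k + 2) + lin y * DD y (ZZ y (k + 1 + 1))) - _) = _
    rw [ih1, ih0]
    push_cast at *
    simp only [map_add, map_one, map_ofNat, map_mul] at *
    show _ = _ * ZZ y (k + 2)
    have e0'' : (C (k : ℝ) + 2) * ZZ y (k + 2) = (2 * C (k : ℝ) + 3) * (lin y * ZZ y (k + 1))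
      - (C (k : ℝ) + 1) * (qq * ZZ y k) := e0'
    linear_combination (exp := 1) (C (k : ℝ) + 3) * ZZ y (k + 2) * hc
      - (C (1 / ((k : ℝ) + 1 + 2)) * (C (k : ℝ) + 2)) * e0''

lemma lap_ZZ (y : Fin 3 → ℝ) (hy : ∑ i, y i ^ 2 = 1) : ∀ k : ℕ, lap (ZZ y k) = 0
  | 0 => by simp [ZZ, lap]
  | 1 => by
    have h := lap_lin_mul y 1
    rw [mul_one] at h
    show lap (lin y) = 0
    rw [h]; simp [lap, DD]
  | (k + 2) => by
    rw [ZZ, lap_C_mul, lap_sub, lap_C_mul, lap_C_mul, lap_lin_mul, lap_qq_mul,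
      lap_ZZ y hy (k + 1), lap_ZZ y hy k, DD_ZZ y hy k, eul_ZZ y k]
    simp only [map_add, map_one, map_ofNat, map_mul]
    ring

/-- factorial weight -/
noncomputable def wt (a : Fin 3 →₀ ℕ) : ℝ := ∏ i, ((a i).factorial : ℝ)

lemma wt_pos (a : Fin 3 →₀ ℕ) : 0 < wt a := by
  unfold wt; positivity

/-- Fischer pairing -/
noncomputable def BB (h : P3) : P3 →ₗ[ℝ] ℝ :=
  (basisMonomials (Fin 3) ℝ).constr ℝ (fun a => wt a * coeff a h)

lemma BB_monomial (h : P3) (a : Fin 3 →₀ ℕ) (c : ℝ) :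
    BB h (monomial a c) = c * (wt a * coeff a h) := by
  have h1 : (monomial a c : P3) = c • (basisMonomials (Fin 3) ℝ a) := by
    rw [coe_basisMonomials, smul_monomial, smul_eq_mul, mul_one]
  rw [h1, map_smul, BB, Module.Basis.constr_basis, smul_eq_mul]

lemma BB_X_mul (i : Fin 3) (h p : P3) : BB h (X i * p) = BB (pderiv i h) p := by
  induction p using MvPolynomial.induction_on' with
  | add p q hp hq => rw [mul_add, map_add, map_add, hp, hq]
  | monomial a c =>
    rw [X, monomial_mul, BB_monomial, BB_monomial, coeff_pderiv, one_mul,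
      add_comm (Finsupp.single i 1) a]
    have : wt (a + Finsupp.single i 1) = wt a * ((a i : ℝ) + 1) := by
      unfold wt
      fin_cases i <;>
      simp [Fin.prod_univ_three, Nat.factorial_succ] <;> ring
    rw [this]; ring

lemma BB_add (h h' p : P3) : BB (h + h') p = BB h p + BB h' p := by
  induction p using MvPolynomial.induction_on' with
  | add p q hp hq => rw [map_add, map_add, map_add, hp, hq]; ring
  | monomial a c => rw [BB_monomial, BB_monomial, BB_monomial, coeff_add]; ring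

lemma BB_C_mul (a : ℝ) (h p : P3) : BB (C a * h) p = a * BB h p := by
  induction p using MvPolynomial.induction_on' with
  | add p q hp hq => rw [map_add, map_add, hp, hq]; ring
  | monomial b c => rw [BB_monomial, BB_monomial, coeff_C_mul]; ring

lemma BB_lin_mul (y : Fin 3 → ℝ) (h p : P3) : BB h (lin y * p) = BB (DD y h) p := by
  simp only [lin, DD, Fin.sum_univ_three, add_mul, map_add, BB_add, BB_C_mul, mul_assoc]
  simp only [C_mul', map_smul, smul_eq_mul, BB_X_mul]

lemma BB_qq_mul (h p : P3) : BB h (qq * p) = BB (lap h) p := by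
  simp only [qq, lap, Fin.sum_univ_three, add_mul, map_add, BB_add, mul_assoc, BB_X_mul]

lemma BB_self_nonneg (p : P3) : 0 ≤ BB p p := by
  have h : BB p p = ∑ a ∈ p.support, coeff a p * (wt a * coeff a p) := by
    conv_lhs => rw [show BB p p = BB p (∑ a ∈ p.support, monomial a (coeff a p)) by
      rw [← p.as_sum]]
    rw [map_sum]
    exact Finset.sum_congr rfl fun a _ => BB_monomial _ _ _
  rw [h]
  refine Finset.sum_nonneg fun a _ => ?_
  have := wt_pos a
  nlinarith [mul_self_nonneg (coeff a p), mul_nonneg this.le (mul_self_nonneg (coeff a p))]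

noncomputable def gam : ℕ → ℝ
  | 0 => 1
  | 1 => 1
  | (k + 2) => (2 * (k : ℝ) + 3) / ((k : ℝ) + 2) * gam (k + 1)

lemma gam_pos : ∀ k, 0 < gam k
  | 0 => one_pos
  | 1 => one_pos
  | (k + 2) => by
    have := gam_pos (k + 1)
    rw [gam]; positivity

lemma pd_comm (i j : Fin 3) (p : P3) : pderiv i (pderiv j p) = pderiv j (pderiv i p) := by
  by_cases hij : i = j
  · rw [hij]
  · ext m
    simp only [coeff_pderiv, Finsupp.add_apply, Finsupp.single_apply, if_neg hij,
      if_neg (Ne.symm hij), add_zero]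
    rw [add_right_comm]; ring

lemma DD_lap (y : Fin 3 → ℝ) (h : P3) : lap (DD y h) = DD y (lap h) := by
  have e : ∀ i : Fin 3, pderiv i (pderiv i (DD y h)) = DD y (pderiv i (pderiv i h)) := by
    intro i
    simp only [DD, map_sum, pderiv_C_mul]
    refine Finset.sum_congr rfl fun j _ => ?_
    rw [pd_comm i j, pd_comm i j]
  simp only [lap, e]
  simp only [DD, map_sum, Finset.mul_sum]
  exact Finset.sum_comm

lemma lap_DD (y : Fin 3 → ℝ) (h : P3) (hh : lap h = 0) : lap (DD y h) = 0 := by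
  rw [DD_lap, hh]; simp [DD]

lemma BB_ZZ (y : Fin 3 → ℝ) : ∀ (k : ℕ) (h : P3), lap h = 0 →
    BB h (ZZ y k) = gam k * coeff 0 ((DD y)^[k] h)
  | 0, h, _ => by
    have : (ZZ y 0) = monomial 0 (1 : ℝ) := rfl
    rw [this, BB_monomial]; simp [gam, wt]
  | 1, h, _ => by
    have : (ZZ y 1) = lin y * monomial 0 (1 : ℝ) := by
      show lin y = lin y * 1
      rw [mul_one]
    rw [this, BB_lin_mul, BB_monomial]; simp [gam, wt]
  | (k + 2), h, hh => by
    have ih := BB_ZZ y (k + 1) (DD y h) (lap_DD y h hh)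
    rw [ZZ, C_mul', map_smul, map_sub, C_mul', C_mul', map_smul, map_smul, BB_lin_mul, BB_qq_mul,
      hh, ih]
    have z : BB (0 : P3) (ZZ y k) = 0 := by
      have := BB_C_mul 0 0 (ZZ y k)
      simpa using this
    rw [z, gam, Function.iterate_succ_apply (DD y) (k + 1) h]
    simp only [smul_eq_mul]
    ring

/-- restriction to the line through `y` -/
noncomputable def phi (y : Fin 3 → ℝ) : P3 →ₐ[ℝ] Polynomial ℝ :=
  aeval (fun i => Polynomial.C (y i) * Polynomial.X)

lemma phi_C (y : Fin 3 → ℝ) (a : ℝ) : phi y (C a) = Polynomial.C a := by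
  simp [phi]

lemma phi_X (y : Fin 3 → ℝ) (i : Fin 3) : phi y (X i) = Polynomial.C (y i) * Polynomial.X := by
  simp [phi]

lemma DD_add (y : Fin 3 → ℝ) (p r : P3) : DD y (p + r) = DD y p + DD y r := by
  simp only [DD, Fin.sum_univ_three, map_add]; ring

lemma DD_X (y : Fin 3 → ℝ) (i : Fin 3) : DD y (X i) = C (y i) := by
  simp only [DD, Fin.sum_univ_three]
  fin_cases i <;> simp

lemma derivative_phi (y : Fin 3 → ℝ) (h : P3) :
    Polynomial.derivative (phi y h) = phi y (DD y h) := by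
  induction h using MvPolynomial.induction_on with
  | C a => simp [phi_C, DD]
  | add p q hp hq => rw [map_add, Polynomial.derivative_add, hp, hq, DD_add, map_add]
  | mul_X p i hp =>
    rw [map_mul, Polynomial.derivative_mul, hp, DD_mul, map_add, map_mul, map_mul, DD_X, phi_X,
      phi_C]
    simp

lemma coeff_zero_phi (y : Fin 3 → ℝ) (h : P3) : (phi y h).coeff 0 = coeff 0 h := by
  induction h using MvPolynomial.induction_on with
  | C a => simp [phi_C]
  | add p q hp hq => rw [map_add, Polynomial.coeff_add, hp, hq, coeff_add]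
  | mul_X p i hp =>
    rw [map_mul, phi_X, Polynomial.mul_coeff_zero, coeff_mul_X']
    simp

lemma phi_iter (y : Fin 3 → ℝ) (k : ℕ) : ∀ h : P3,
    phi y ((DD y)^[k] h) = Polynomial.derivative^[k] (phi y h) := by
  induction k with
  | zero => intro h; rfl
  | succ k ih => intro h; rw [Function.iterate_succ_apply, ih, Function.iterate_succ_apply,
      derivative_phi]

lemma coeff_iter (y : Fin 3 → ℝ) (k : ℕ) (h : P3) :
    coeff 0 ((DD y)^[k] h) = (k.factorial : ℝ) * (phi y h).coeff k := by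
  rw [← coeff_zero_phi y, phi_iter, Polynomial.coeff_iterate_derivative, zero_add,
    Nat.descFactorial_self, nsmul_eq_mul]

lemma phi_lin (y y' : Fin 3 → ℝ) : phi y (lin y') = Polynomial.C (∑ i, y i * y' i) *
    Polynomial.X := by
  simp only [lin, Fin.sum_univ_three, map_add, map_mul, phi_C, phi_X]
  ring

lemma phi_qq (y : Fin 3 → ℝ) (hy : ∑ i, y i ^ 2 = 1) : phi y qq = Polynomial.X ^ 2 := by
  have : (1 : Polynomial ℝ) = Polynomial.C (∑ i, y i ^ 2) := by rw [hy, Polynomial.C_1]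
  simp only [qq, Fin.sum_univ_three, map_add, map_mul, phi_X]
  rw [Fin.sum_univ_three] at this
  simp only [map_add, map_pow] at this
  linear_combination (- Polynomial.X ^ 2) * this

lemma phi_ZZ (y y' : Fin 3 → ℝ) (hy : ∑ i, y i ^ 2 = 1) : ∀ k,
    phi y (ZZ y' k) = Polynomial.C (leg (∑ i, y i * y' i) k) * Polynomial.X ^ k
  | 0 => by simp [ZZ, leg]
  | 1 => by
    show phi y (lin y') = _
    rw [phi_lin]; simp [leg]
  | (k + 2) => by
    rw [ZZ, leg]
    simp only [map_mul, map_sub, phi_C, phi_lin, phi_qq y hy, phi_ZZ y y' hy (k + 1),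
      phi_ZZ y y' hy k, div_eq_mul_inv, one_mul]
    ring

lemma BB_ZZ_ZZ (y y' : Fin 3 → ℝ) (hy : ∑ i, y i ^ 2 = 1) (hy' : ∑ i, y' i ^ 2 = 1) (k : ℕ) :
    BB (ZZ y' k) (ZZ y k) = gam k * k.factorial * leg (∑ i, y i * y' i) k := by
  rw [BB_ZZ y k _ (lap_ZZ y' hy' k), coeff_iter, phi_ZZ y y' hy]
  simp; ring

lemma BB_sum_left {ι : Type*} (s : Finset ι) (f : ι → P3) (p : P3) :
    BB (∑ j ∈ s, f j) p = ∑ j ∈ s, BB (f j) p := by
  classical
  induction s using Finset.induction_on with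
  | empty =>
    have := BB_C_mul 0 0 p
    simpa using this
  | insert a s ha ih => rw [Finset.sum_insert ha, Finset.sum_insert ha, BB_add, ih]

/-- positive definiteness of the Legendre kernels on the unit sphere -/
theorem leg_posdef {ι : Type*} [Fintype ι] (y : ι → Fin 3 → ℝ) (hy : ∀ j, ∑ i, y j i ^ 2 = 1)
    (c : ι → ℝ) (k : ℕ) :
    0 ≤ ∑ j, ∑ l, c j * c l * leg (∑ i, y j i * y l i) k := by
  have h := BB_self_nonneg (∑ j, C (c j) * ZZ (y j) k)
  rw [BB_sum_left] at h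
  have e : ∀ l, BB (C (c l) * ZZ (y l) k) (∑ j, C (c j) * ZZ (y j) k) =
      ∑ j, (gam k * k.factorial) * (c j * c l * leg (∑ i, y j i * y l i) k) := by
    intro l
    rw [BB_C_mul, map_sum, Finset.mul_sum]
    refine Finset.sum_congr rfl fun j _ => ?_
    rw [C_mul', map_smul, BB_ZZ_ZZ (y j) (y l) (hy j) (hy l) k, smul_eq_mul]
    ring
  simp only [e, ← Finset.mul_sum] at h
  rw [Finset.sum_comm] at h
  have hg : 0 < gam k * k.factorial := mul_pos (gam_pos k) (by positivity)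
  exact nonneg_of_mul_nonneg_right h hg

lemma leg_one : ∀ k, leg 1 k = 1
  | 0 => rfl
  | 1 => rfl
  | (k + 2) => by
    rw [leg, leg_one (k + 1), leg_one k]
    field_simp; ring

theorem abs_leg_le_one (s : ℝ) (hs : |s| ≤ 1) (k : ℕ) : |leg s k| ≤ 1 := by
  have hs2 : s ^ 2 ≤ 1 := by
    rw [abs_le] at hs; nlinarith [hs.1, hs.2]
  let y : Fin 2 → Fin 3 → ℝ := ![![1, 0, 0], ![s, Real.sqrt (1 - s ^ 2), 0]]
  have hy : ∀ j, ∑ i, y j i ^ 2 = 1 := by
    intro j
    fin_cases j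
    · simp [y, Fin.sum_univ_three]
    · simp [y, Fin.sum_univ_three]
      rw [Real.sq_sqrt (by linarith)]; ring
  have h1 := leg_posdef y hy ![1, 1] k
  have h2 := leg_posdef y hy ![1, -1] k
  have e00 : ∑ i, y 0 i * y 0 i = 1 := by simp [y, Fin.sum_univ_three]
  have e01 : ∑ i, y 0 i * y 1 i = s := by simp [y, Fin.sum_univ_three]
  have e10 : ∑ i, y 1 i * y 0 i = s := by simp [y, Fin.sum_univ_three]
  have e11 : ∑ i, y 1 i * y 1 i = 1 := by
    have := hy 1
    simpa [pow_two] using this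
  simp only [Fin.sum_univ_two, e00, e01, e10, e11, leg_one] at h1 h2
  simp at h1 h2
  rw [abs_le]
  constructor <;> linarith

end Pool.Agent.Helper858.Leg
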