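import Mathlib
import Pool.Agent.Helper858.Leg

namespace Pool.Agent.Helper858.Gen

open Pool.Agent.Helper858.Leg Set

lemma summable_bdd {a : ℕ → ℝ} (ha : ∀ k, |a k| ≤ 1) {ρ : ℝ} (hρ : |ρ| < 1) :
    Summable (fun k => a k * ρ ^ k) := by
  refine Summable.of_norm_bounded (g := fun k => |ρ| ^ k) (summable_geometric_of_lt_one
    (abs_nonneg _) hρ) fun k => ?_
  rw [norm_mul, norm_pow, Real.norm_eq_abs, Real.norm_eq_abs]
  exact mul_le_of_le_one_left (by positivity) (ha k)

lemma summable_bdd' {a : ℕ → ℝ} (ha : ∀ k, |a k| ≤ 1) {ρ : ℝ} (hρ : |ρ| < 1) :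
    Summable (fun k => a k * ((k : ℝ) * ρ ^ (k - 1))) := by
  have h1 : Summable (fun k : ℕ => (k : ℝ) * |ρ| ^ (k - 1)) := by
    have := summable_pow_mul_geometric_of_norm_lt_one 1 (r := |ρ|) (by simpa using hρ)
    rw [← summable_nat_add_iff 1]
    simp only [pow_one, Nat.cast_add, Nat.cast_one, Nat.add_sub_cancel, add_mul, one_mul] at *
    exact this.add (summable_geometric_of_lt_one (abs_nonneg _) hρ)
  refine Summable.of_norm_bounded h1 fun k => ?_
  rw [norm_mul, norm_mul, norm_pow, Real.norm_eq_abs, Real.norm_eq_abs, Real.norm_eq_abs,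
    Nat.abs_cast]
  exact mul_le_of_le_one_left (by positivity) (ha k)

/-- termwise differentiation of a power series with bounded coefficients -/
lemma hasDerivAt_pow_tsum {a : ℕ → ℝ} (ha : ∀ k, |a k| ≤ 1) {ρ : ℝ} (hρ : |ρ| < 1) :
    HasDerivAt (fun x => ∑' k, a k * x ^ k) (∑' k, a k * ((k : ℝ) * ρ ^ (k - 1))) ρ := by
  obtain ⟨R, hR1, hR2⟩ := exists_between hρ
  have hR0 : 0 ≤ R := (abs_nonneg _).trans hR1.le
  have hsum : Summable (fun k : ℕ => (k : ℝ) * R ^ (k - 1)) := by
    have := summable_bdd' (a := fun _ => 1) (by simp) (ρ := R) (by rwa [abs_of_nonneg hR0])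
    simpa using this
  refine hasDerivAt_tsum_of_isPreconnected (t := Ioo (-R) R) hsum isOpen_Ioo isPreconnected_Ioo
    (g := fun k x => a k * x ^ k) (g' := fun k x => a k * ((k : ℝ) * x ^ (k - 1)))
    (fun k y _ => ?_) (fun k y hy => ?_) (y₀ := ρ) ?_ (summable_bdd ha hρ) ?_
  · simpa using (hasDerivAt_pow k y).const_mul (a k)
  · rw [norm_mul, norm_mul, norm_pow, Real.norm_eq_abs, Real.norm_eq_abs, Real.norm_eq_abs,
      Nat.abs_cast]
    have hy' : |y| ≤ R := by rw [abs_le]; exact ⟨hy.1.le, hy.2.le⟩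
    calc |a k| * ((k : ℝ) * |y| ^ (k - 1)) ≤ 1 * ((k : ℝ) * R ^ (k - 1)) := by
          gcongr
          exact ha k
      _ = _ := one_mul _
  · rw [abs_lt] at hR1; exact hR1
  · rw [abs_lt] at hR1; exact hR1

lemma w_pos {s ρ : ℝ} (hs : |s| ≤ 1) (hρ : |ρ| < 1) : 0 < 1 - 2 * ρ * s + ρ ^ 2 := by
  rw [abs_le] at hs; rw [abs_lt] at hρ
  have h1 : 0 < 1 - |ρ| := by
    have := abs_lt.mpr hρ; linarith
  have h2 : ρ * s ≤ |ρ| := by
    calc ρ * s ≤ |ρ * s| := le_abs_self _
      _ = |ρ| * |s| := abs_mul _ _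
      _ ≤ |ρ| * 1 := by gcongr; exact abs_le.mpr hs
      _ = |ρ| := mul_one _
  have h3 : ρ ^ 2 = |ρ| ^ 2 := (sq_abs ρ).symm
  nlinarith

/-- the generating function of the Legendre polynomials -/
theorem leg_gen {s ρ : ℝ} (hs : |s| ≤ 1) (hρ : |ρ| < 1) :
    ∑' k, leg s k * ρ ^ k = (1 - 2 * ρ * s + ρ ^ 2) ^ (-(1/2) : ℝ) := by
  have ha : ∀ k, |leg s k| ≤ 1 := abs_leg_le_one s hs
  set ψ : ℝ → ℝ := fun x => ∑' k, leg s k * x ^ k with hψ
  set ψ' : ℝ → ℝ := fun x => ∑' k, leg s k * ((k : ℝ) * x ^ (k - 1)) with hψ'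
  have hder : ∀ x, |x| < 1 → HasDerivAt ψ (ψ' x) x := fun x hx => hasDerivAt_pow_tsum ha hx
  have ode : ∀ x, |x| < 1 → (1 - 2 * x * s + x ^ 2) * ψ' x = (s - x) * ψ x := by
    intro x hx
    have S0 := summable_bdd ha hx
    have S1 := summable_bdd' ha hx
    -- shifted series
    have e1 : ψ' x = ∑' k : ℕ, leg s (k + 1) * (((k : ℝ) + 1) * x ^ k) := by
      rw [hψ']; simp only
      rw [S1.tsum_eq_zero_add]
      simp
    have S1s : Summable (fun k : ℕ => leg s (k + 1) * (((k : ℝ) + 1) * x ^ k)) := by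
      have := (summable_nat_add_iff 1).mpr S1
      simpa using this
    have e2 : x * ψ' x = ∑' k : ℕ, leg s k * ((k : ℝ) * x ^ k) := by
      rw [hψ']; simp only
      rw [← tsum_mul_left]
      refine tsum_congr fun k => ?_
      rcases k with _ | k
      · simp
      · simp; ring
    have S2 : Summable (fun k : ℕ => leg s k * ((k : ℝ) * x ^ k)) := by
      have := S1.mul_left x
      refine this.congr fun k => ?_
      rcases k with _ | k
      · simp
      · simp; ring
    have S3 : Summable (fun k : ℕ => leg s k * (((k : ℝ) + 1) * x ^ (k + 1))) := by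
      have := (S2.add S0).mul_left x
      refine this.congr fun k => ?_
      ring
    have e3 : x * (x * ψ' x + ψ x) = ∑' k : ℕ, leg s k * (((k : ℝ) + 1) * x ^ (k + 1)) := by
      rw [e2, hψ]; simp only
      rw [← S2.tsum_add S0, ← tsum_mul_left]
      refine tsum_congr fun k => ?_
      ring
    have S4 : Summable (fun k : ℕ => (2 * (k : ℝ) + 1) * s * leg s k * x ^ k) := by
      have := ((S2.mul_left (2 * s)).add (S0.mul_left s))
      refine this.congr fun k => ?_
      ring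
    have e4 : 2 * s * (x * ψ' x) + s * ψ x = ∑' k : ℕ, (2 * (k : ℝ) + 1) * s * leg s k * x ^ k := by
      rw [e2, hψ]; simp only
      rw [← tsum_mul_left, ← tsum_mul_left, ← (S2.mul_left _).tsum_add (S0.mul_left _)]
      refine tsum_congr fun k => ?_
      ring
    -- Bonnet recurrence
    have key : ψ' x - (2 * s * (x * ψ' x) + s * ψ x) + x * (x * ψ' x + ψ x) = 0 := by
      rw [e3, e4, e1]
      rw [S1s.tsum_eq_zero_add, S4.tsum_eq_zero_add]
      have S1ss : Summable (fun k : ℕ => leg s (k + 1 + 1) * ((((k + 1 : ℕ) : ℝ) + 1) * x ^ (k + 1))) :=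
        (summable_nat_add_iff 1).mpr S1s
      have S4s : Summable (fun k : ℕ => (2 * ((k + 1 : ℕ) : ℝ) + 1) * s * leg s (k + 1) * x ^ (k + 1)) :=
        (summable_nat_add_iff 1).mpr S4
      have : (∑' k : ℕ, leg s (k + 1 + 1) * ((((k + 1 : ℕ) : ℝ) + 1) * x ^ (k + 1)))
          - (∑' k : ℕ, (2 * ((k + 1 : ℕ) : ℝ) + 1) * s * leg s (k + 1) * x ^ (k + 1))
          + (∑' k : ℕ, leg s k * (((k : ℝ) + 1) * x ^ (k + 1))) = 0 := by
        rw [← S1ss.tsum_sub S4s, ← (S1ss.sub S4s).tsum_add S3]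
        rw [← tsum_zero (α := ℝ) (β := ℕ)]
        refine tsum_congr fun k => ?_
        have hr : leg s (k + 1 + 1) * ((k : ℝ) + 2) =
            (2 * (k : ℝ) + 3) * s * leg s (k + 1) - ((k : ℝ) + 1) * leg s k := by
          rw [leg]; field_simp
        push_cast
        linear_combination (x ^ (k + 1)) * hr
      have l0 : leg s 0 = 1 := rfl
      have l1 : leg s (0 + 1) = s := rfl
      simp only [l0, l1, Nat.cast_zero, pow_zero] 
      linarith
    linear_combination key
  -- the product with sqrt w is constant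
  set g : ℝ → ℝ := fun x => Real.sqrt (1 - 2 * x * s + x ^ 2) * ψ x with hg
  have hgd : ∀ x ∈ Ioo (-1 : ℝ) 1, HasDerivAt g 0 x := by
    intro x hx
    have hx' : |x| < 1 := abs_lt.mpr hx
    have hw := w_pos hs hx'
    have h1 : HasDerivAt (fun x : ℝ => 1 - 2 * x * s + x ^ 2) (- 2 * s + 2 * x) x := by
      have := (((hasDerivAt_id x).const_mul 2).mul_const s).const_sub 1 |>.add (hasDerivAt_pow 2 x)
      refine HasDerivAt.congr_deriv this ?_
      simp
    have h2 := h1.sqrt hw.ne'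
    have h3 := h2.mul (hder x hx')
    refine HasDerivAt.congr_deriv h3 ?_
    have hsq : Real.sqrt (1 - 2 * x * s + x ^ 2) ≠ 0 := (Real.sqrt_pos.mpr hw).ne'
    have hs2 := Real.sq_sqrt hw.le
    generalize Real.sqrt (1 - 2 * x * s + x ^ 2) = R at hsq hs2
    have e : (-2 * s + 2 * x) / (2 * R) * ψ x + R * ψ' x =
        ((x - s) * ψ x + R ^ 2 * ψ' x) / R := by
      field_simp
      ring
    rw [e, hs2, ode x hx', show (x - s) * ψ x + (s - x) * ψ x = 0 by ring, zero_div]
  have hconst : g ρ = g 0 := by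
    have hconv : Convex ℝ (Ioo (-1 : ℝ) 1) := convex_Ioo _ _
    apply hconv.is_const_of_fderivWithin_eq_zero (𝕜 := ℝ) (f := g)
    · intro x hx; exact (hgd x hx).differentiableAt.differentiableWithinAt
    · intro x hx
      rw [fderivWithin_of_isOpen isOpen_Ioo hx]
      have := (hgd x hx).hasFDerivAt.fderiv
      rw [this]; ext; simp
    · exact abs_lt.mp hρ
    · constructor <;> norm_num
  have g0 : g 0 = 1 := by
    simp only [hg, hψ]
    have : ∑' k, leg s k * (0 : ℝ) ^ k = 1 := by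
      rw [tsum_eq_single 0]
      · simp [leg]
      · intro k hk; simp [hk]
    rw [this]; simp
  have hw := w_pos hs hρ
  have : g ρ = 1 := hconst.trans g0
  simp only [hg] at this
  rw [Real.sqrt_eq_rpow] at this
  rw [Real.rpow_neg hw.le]
  have hne : (1 - 2 * ρ * s + ρ ^ 2) ^ (1 / 2 : ℝ) ≠ 0 := (Real.rpow_pos_of_pos hw _).ne'
  field_simp
  linarith

end Pool.Agent.Helper858.Gen
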