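import Mathlib
import Pool.Agent.Helper858.Gen

namespace Pool.Agent.Helper858.Der

open Pool.Agent.Helper858.Leg Pool.Agent.Helper858.Gen Set

/-- `σ(x) = √(x² − 1)` -/
noncomputable def sg (x : ℝ) : ℝ := Real.sqrt (x ^ 2 - 1)
/-- `ρ(x) = x − √(x² − 1)` -/
noncomputable def rh (x : ℝ) : ℝ := x - sg x

lemma sg_pos {x : ℝ} (hx : 1 < x) : 0 < sg x := Real.sqrt_pos.mpr (by nlinarith)
lemma sg_sq {x : ℝ} (hx : 1 ≤ x) : sg x ^ 2 = x ^ 2 - 1 := Real.sq_sqrt (by nlinarith)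
lemma sg_lt {x : ℝ} (hx : 1 ≤ x) : sg x < x := by
  unfold sg
  rw [Real.sqrt_lt' (by linarith)]; linarith
lemma rh_pos {x : ℝ} (hx : 1 ≤ x) : 0 < rh x := by unfold rh; linarith [sg_lt hx]
lemma rh_mul {x : ℝ} (hx : 1 ≤ x) : rh x * (x + sg x) = 1 := by
  unfold rh; nlinarith [sg_sq hx]
lemma rh_lt_one {x : ℝ} (hx : 1 < x) : rh x < 1 := by
  have h1 := rh_mul hx.le
  have h2 := sg_pos hx
  have h3 := rh_pos hx.le
  nlinarith
lemma sg_mono {x y : ℝ} (hy : 1 ≤ y) (hxy : y ≤ x) : sg y ≤ sg x :=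
  Real.sqrt_le_sqrt (by nlinarith)
lemma rh_anti {x y : ℝ} (hy : 1 ≤ y) (hxy : y ≤ x) : rh x ≤ rh y := by
  have h1 := rh_mul hy
  have h2 := rh_mul (hy.trans hxy)
  have h3 := sg_mono hy hxy
  have h4 := rh_pos hy
  have h5 := rh_pos (hy.trans hxy)
  have h6 : 0 ≤ sg y := Real.sqrt_nonneg _
  by_contra hcon
  push Not at hcon
  nlinarith

lemma hasDerivAt_sg {x : ℝ} (hx : 1 < x) : HasDerivAt sg (x / sg x) x := by
  have h1 : HasDerivAt (fun x : ℝ => x ^ 2 - 1) (2 * x) x := by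
    have := (hasDerivAt_pow 2 x).sub_const 1
    refine HasDerivAt.congr_deriv this ?_
    simp
  have h2 := h1.sqrt (by nlinarith : (x ^ 2 - 1) ≠ 0)
  refine HasDerivAt.congr_deriv h2 ?_
  unfold sg
  rw [mul_div_mul_left _ _ two_ne_zero]

lemma hasDerivAt_rh {x : ℝ} (hx : 1 < x) : HasDerivAt rh (- rh x / sg x) x := by
  have h := (hasDerivAt_id x).sub (hasDerivAt_sg hx)
  refine HasDerivAt.congr_deriv h ?_
  have := (sg_pos hx).ne'
  unfold rh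
  field_simp
  ring

/-- `E_k(x) = ρ^k √ρ` -/
noncomputable def EE (k : ℕ) (x : ℝ) : ℝ := rh x ^ k * Real.sqrt (rh x)

lemma EE_pos (k : ℕ) {x : ℝ} (hx : 1 ≤ x) : 0 < EE k x :=
  mul_pos (pow_pos (rh_pos hx) _) (Real.sqrt_pos.mpr (rh_pos hx))

lemma hasDerivAt_EE (k : ℕ) {x : ℝ} (hx : 1 < x) :
    HasDerivAt (EE k) (-(((k : ℝ) + 1 / 2) * EE k x / sg x)) x := by
  have h0 := hasDerivAt_rh hx
  have hp := rh_pos hx.le
  have h1 := h0.pow k
  have h2 := h0.sqrt hp.ne'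
  have h3 := h1.mul h2
  refine HasDerivAt.congr_deriv h3 ?_
  unfold EE
  have hs := (sg_pos hx).ne'
  have hr : Real.sqrt (rh x) ≠ 0 := (Real.sqrt_pos.mpr hp).ne'
  have hrr : rh x = Real.sqrt (rh x) ^ 2 := (Real.sq_sqrt hp.le).symm
  have hk : (k : ℝ) * rh x ^ (k - 1) * rh x = (k : ℝ) * rh x ^ k := by
    rcases k with _ | k
    · simp
    · simp [pow_succ]; ring
  have e1 : (k : ℝ) * rh x ^ (k - 1) * (-rh x / sg x) = - ((k : ℝ) * rh x ^ k) / sg x := by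
    rw [← hk]; ring
  simp only [Pi.pow_apply]
  rw [e1]
  have e2 : -rh x / sg x / (2 * Real.sqrt (rh x)) = - Real.sqrt (rh x) / (2 * sg x) := by
    rw [div_div, div_eq_div_iff (by positivity) (by positivity)]
    nth_rewrite 1 [hrr]
    ring
  rw [e2]
  field_simp
  ring

/-- iterated derivatives: `D m k x = (-d/dx)^m E_k` -/
noncomputable def D (k : ℕ) (x : ℝ) : ℕ → ℝ
  | 0 => EE k x
  | 1 => ((k : ℝ) + 1 / 2) * EE k x / sg x
  | (m + 2) => ((2 * (m : ℝ) + 1) * x * D k x (m + 1) +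
      (((k : ℝ) + 1 / 2) ^ 2 - (m : ℝ) ^ 2) * D k x m) / (x ^ 2 - 1)

lemma hasDerivAt_D (k : ℕ) {x : ℝ} (hx : 1 < x) : ∀ m : ℕ,
    HasDerivAt (fun y => D k y m) (- D k x (m + 1)) x
  | 0 => by
    exact hasDerivAt_EE k hx
  | 1 => by
    have hs := (sg_pos hx).ne'
    have h := ((hasDerivAt_EE k hx).const_mul ((k : ℝ) + 1 / 2)).div (hasDerivAt_sg hx) hs
    refine HasDerivAt.congr_deriv h ?_
    have hx2 : x ^ 2 - 1 = sg x ^ 2 := (sg_sq hx.le).symm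
    show _ = - (((2 * ((0 : ℕ) : ℝ) + 1) * x * (((k : ℝ) + 1 / 2) * EE k x / sg x) +
      (((k : ℝ) + 1 / 2) ^ 2 - ((0 : ℕ) : ℝ) ^ 2) * EE k x) / (x ^ 2 - 1))
    rw [hx2]
    push_cast
    field_simp
    ring
  | (m + 2) => by
    have ih1 := hasDerivAt_D k hx (m + 1)
    have ih0 := hasDerivAt_D k hx m
    have hx2 : x ^ 2 - 1 ≠ 0 := by nlinarith
    have hid := (hasDerivAt_id x).const_mul (2 * (m : ℝ) + 1)
    have hden : HasDerivAt (fun x : ℝ => x ^ 2 - 1) (2 * x) x := by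
      have := (hasDerivAt_pow 2 x).sub_const 1
      refine HasDerivAt.congr_deriv this ?_
      simp
    have h := ((hid.mul ih1).add (ih0.const_mul (((k : ℝ) + 1 / 2) ^ 2 - (m : ℝ) ^ 2))).div hden hx2
    refine HasDerivAt.congr_deriv h ?_
    have e2 : D k x (m + 2) * (x ^ 2 - 1) = (2 * (m : ℝ) + 1) * x * D k x (m + 1) +
      (((k : ℝ) + 1 / 2) ^ 2 - (m : ℝ) ^ 2) * D k x m := by
      rw [D, div_mul_cancel₀ _ hx2]
    have e3 : D k x (m + 2 + 1) * (x ^ 2 - 1) = (2 * ((m + 1 : ℕ) : ℝ) + 1) * x * D k x (m + 2) +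
      (((k : ℝ) + 1 / 2) ^ 2 - ((m + 1 : ℕ) : ℝ) ^ 2) * D k x (m + 1) := by
      show D k x (m + 1 + 2) * (x ^ 2 - 1) = _
      rw [D, div_mul_cancel₀ _ hx2]
    push_cast at e3
    simp only [Pi.add_apply, Pi.mul_apply, id, mul_one, mul_neg]
    rw [div_eq_iff (by positivity)]
    show _ = - D k x (m + 2 + 1) * (x ^ 2 - 1) ^ 2
    show ((2 * (m : ℝ) + 1) * D k x (m + 1) + -((2 * (m : ℝ) + 1) * x * D k x (m + 2)) +
      -((((k : ℝ) + 1 / 2) ^ 2 - (m : ℝ) ^ 2) * D k x (m + 1))) * (x ^ 2 - 1) -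
      ((2 * (m : ℝ) + 1) * x * D k x (m + 1) +
        (((k : ℝ) + 1 / 2) ^ 2 - (m : ℝ) ^ 2) * D k x m) * (2 * x) = _
    linear_combination (2 * x) * e2 + (x ^ 2 - 1) * e3

/-- locally uniform bound on `D` -/
lemma D_bound {x₀ x₁ : ℝ} (h0 : 1 < x₀) : ∀ m : ℕ, ∃ C : ℝ, 0 ≤ C ∧ ∀ k : ℕ, ∀ x ∈ Ioo x₀ x₁,
    |D k x m| ≤ C * ((k : ℝ) + 1) ^ m * rh x₀ ^ k
  | 0 => by
    refine ⟨1, zero_le_one, fun k x hx => ?_⟩
    have h1 : 1 ≤ x := h0.le.trans hx.1.le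
    have hp := EE_pos k h1
    show |EE k x| ≤ _
    rw [abs_of_pos hp, pow_zero, one_mul, one_mul]
    unfold EE
    have hr1 := rh_pos h1
    have hr2 := rh_lt_one (h0.trans hx.1)
    calc rh x ^ k * Real.sqrt (rh x) ≤ rh x ^ k * 1 := by
          gcongr
          rw [Real.sqrt_le_one]
          exact hr2.le
      _ = rh x ^ k := mul_one _
      _ ≤ rh x₀ ^ k := by
          gcongr
          exact rh_anti h0.le hx.1.le
  | 1 => by
    obtain ⟨C, hC, hb⟩ := D_bound (x₁ := x₁) h0 0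
    have hs0 := sg_pos h0
    refine ⟨C / sg x₀, by positivity, fun k x hx => ?_⟩
    have h1 : 1 < x := h0.trans hx.1
    have hb := hb k x hx
    simp only [pow_zero, mul_one] at hb
    show |((k : ℝ) + 1 / 2) * EE k x / sg x| ≤ _
    rw [abs_div, abs_mul, abs_of_pos (sg_pos h1), abs_of_pos (by positivity : 0 < (k : ℝ) + 1 / 2)]
    have hb' : |EE k x| ≤ C * rh x₀ ^ k := hb
    have hr := rh_pos h0.le
    rw [div_le_iff₀ (sg_pos h1)]
    calc ((k : ℝ) + 1 / 2) * |EE k x| ≤ ((k : ℝ) + 1) * (C * rh x₀ ^ k) := by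
          gcongr; norm_num
      _ = (C / sg x₀ * ((k : ℝ) + 1) ^ 1 * rh x₀ ^ k) * sg x₀ := by field_simp
      _ ≤ (C / sg x₀ * ((k : ℝ) + 1) ^ 1 * rh x₀ ^ k) * sg x := by
          gcongr
          exact sg_mono h0.le hx.1.le
  | (m + 2) => by
    obtain ⟨C1, hC1, hb1⟩ := D_bound (x₁ := x₁) h0 (m + 1)
    obtain ⟨C0, hC0, hb0⟩ := D_bound (x₁ := x₁) h0 m
    have hs0 : 0 < x₀ ^ 2 - 1 := by nlinarith
    refine ⟨((2 * (m : ℝ) + 1) * |x₁| * C1 + (1 + (m : ℝ) ^ 2) * C0) / (x₀ ^ 2 - 1),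
      by positivity, fun k x hx => ?_⟩
    have h1 : 1 < x := h0.trans hx.1
    have hb1 := hb1 k x hx
    have hb0 := hb0 k x hx
    have hden : 0 < x ^ 2 - 1 := by nlinarith
    have hr := rh_pos h0.le
    rw [D, abs_div, abs_of_pos hden, div_le_iff₀ hden]
    have hk1 : (1 : ℝ) ≤ (k : ℝ) + 1 := by
      have : (0 : ℝ) ≤ k := Nat.cast_nonneg k
      linarith
    have hx1 : |x| ≤ |x₁| := by
      rw [abs_of_pos (by linarith : 0 < x), abs_of_pos (by linarith [hx.2] : 0 < x₁)]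
      exact hx.2.le
    have hc : |((k : ℝ) + 1 / 2) ^ 2 - (m : ℝ) ^ 2| ≤ (1 + (m : ℝ) ^ 2) * ((k : ℝ) + 1) ^ 2 := by
      rw [abs_le]
      constructor
      · nlinarith [sq_nonneg ((k : ℝ) + 1 / 2), mul_nonneg (sq_nonneg (m : ℝ))
          (by nlinarith : (0 : ℝ) ≤ ((k : ℝ) + 1) ^ 2 - 1)]
      · nlinarith [sq_nonneg ((k : ℝ) + 1 / 2), mul_nonneg (sq_nonneg (m : ℝ))
          (by nlinarith : (0 : ℝ) ≤ ((k : ℝ) + 1) ^ 2 - 1), Nat.cast_nonneg (α := ℝ) k]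
    calc |(2 * (m : ℝ) + 1) * x * D k x (m + 1) + (((k : ℝ) + 1 / 2) ^ 2 - (m : ℝ) ^ 2) * D k x m|
        ≤ |(2 * (m : ℝ) + 1) * x * D k x (m + 1)| +
          |(((k : ℝ) + 1 / 2) ^ 2 - (m : ℝ) ^ 2) * D k x m| := abs_add_le _ _
      _ = (2 * (m : ℝ) + 1) * |x| * |D k x (m + 1)| +
          |((k : ℝ) + 1 / 2) ^ 2 - (m : ℝ) ^ 2| * |D k x m| := by
          rw [abs_mul, abs_mul, abs_mul, abs_of_pos (by positivity : 0 < 2 * (m : ℝ) + 1)]
      _ ≤ (2 * (m : ℝ) + 1) * |x₁| * (C1 * ((k : ℝ) + 1) ^ (m + 1) * rh x₀ ^ k) +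
          ((1 + (m : ℝ) ^ 2) * ((k : ℝ) + 1) ^ 2) * (C0 * ((k : ℝ) + 1) ^ m * rh x₀ ^ k) := by
          gcongr
      _ ≤ (2 * (m : ℝ) + 1) * |x₁| * (C1 * ((k : ℝ) + 1) ^ (m + 2) * rh x₀ ^ k) +
          ((1 + (m : ℝ) ^ 2) * ((k : ℝ) + 1) ^ 2) * (C0 * ((k : ℝ) + 1) ^ m * rh x₀ ^ k) := by
          gcongr
          norm_num
      _ = (((2 * (m : ℝ) + 1) * |x₁| * C1 + (1 + (m : ℝ) ^ 2) * C0) / (x₀ ^ 2 - 1) *
          ((k : ℝ) + 1) ^ (m + 2) * rh x₀ ^ k) * (x₀ ^ 2 - 1) := by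
          field_simp; ring
      _ ≤ (((2 * (m : ℝ) + 1) * |x₁| * C1 + (1 + (m : ℝ) ^ 2) * C0) / (x₀ ^ 2 - 1) *
          ((k : ℝ) + 1) ^ (m + 2) * rh x₀ ^ k) * (x ^ 2 - 1) := by
          gcongr
          exact hx.1.le

lemma summable_majorant {r : ℝ} (h0 : 0 < r) (h1 : r < 1) (C : ℝ) (m : ℕ) :
    Summable (fun k : ℕ => C * ((k : ℝ) + 1) ^ m * r ^ k) := by
  have h := summable_pow_mul_geometric_of_norm_lt_one m (r := r)
    (by rw [Real.norm_eq_abs, abs_of_pos h0]; exact h1)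
  have h2 := (summable_nat_add_iff 1).mpr h
  have h3 := h2.mul_left (C / r)
  refine h3.congr fun k => ?_
  push_cast
  rw [pow_succ]
  field_simp

lemma summable_D {a : ℕ → ℝ} (ha : ∀ k, |a k| ≤ 1) {x : ℝ} (hx : 1 < x) (m : ℕ) :
    Summable (fun k => a k * D k x m) := by
  obtain ⟨x₀, h0, h1⟩ := exists_between hx
  obtain ⟨C, hC, hb⟩ := D_bound (x₁ := x + 1) h0 m
  refine Summable.of_norm_bounded (summable_majorant (rh_pos h0.le) (rh_lt_one h0) C m) fun k => ?_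
  rw [norm_mul, Real.norm_eq_abs, Real.norm_eq_abs]
  calc |a k| * |D k x m| ≤ 1 * |D k x m| := by gcongr; exact ha k
    _ = |D k x m| := one_mul _
    _ ≤ _ := hb k x ⟨h1, by linarith⟩

lemma hasDerivAt_tsum_D {a : ℕ → ℝ} (ha : ∀ k, |a k| ≤ 1) {x : ℝ} (hx : 1 < x) (m : ℕ) :
    HasDerivAt (fun y => ∑' k, a k * D k y m) (- ∑' k, a k * D k x (m + 1)) x := by
  obtain ⟨x₀, h0, h1⟩ := exists_between hx
  obtain ⟨C, hC, hb⟩ := D_bound (x₁ := x + 1) h0 (m + 1)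
  have hmem : x ∈ Ioo x₀ (x + 1) := ⟨h1, by linarith⟩
  have h := hasDerivAt_tsum_of_isPreconnected (t := Ioo x₀ (x + 1))
    (summable_majorant (rh_pos h0.le) (rh_lt_one h0) C (m + 1)) isOpen_Ioo isPreconnected_Ioo
    (g := fun k y => a k * D k y m) (g' := fun k y => a k * (- D k y (m + 1)))
    (fun k y hy => (hasDerivAt_D k (h0.trans hy.1) m).const_mul (a k)) (fun k y hy => ?_)
    (y₀ := x) hmem (summable_D ha hx m) hmem
  · refine HasDerivAt.congr_deriv h ?_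
    rw [← tsum_neg]
    exact tsum_congr fun k => by ring
  · rw [norm_mul, norm_neg, Real.norm_eq_abs, Real.norm_eq_abs]
    calc |a k| * |D k y (m + 1)| ≤ 1 * |D k y (m + 1)| := by gcongr; exact ha k
      _ = |D k y (m + 1)| := one_mul _
      _ ≤ _ := hb k y hy

/-- odd double factorials -/
def dfac : ℕ → ℕ
  | 0 => 1
  | (m + 1) => (2 * m + 1) * dfac m

lemma dfac_pos : ∀ m, 0 < dfac m
  | 0 => one_pos
  | (m + 1) => Nat.mul_pos (by omega) (dfac_pos m)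

/-- `(-d/dx)^m (2(x-s))^{-1/2}` -/
noncomputable def GG (s : ℝ) (m : ℕ) (x : ℝ) : ℝ :=
  (dfac m : ℝ) * (2 * (x - s)) ^ (-((m : ℝ) + 1 / 2))

lemma hasDerivAt_GG {s x : ℝ} (h : s < x) (m : ℕ) :
    HasDerivAt (GG s m) (- GG s (m + 1) x) x := by
  have h1 : HasDerivAt (fun y : ℝ => 2 * (y - s)) 2 x := by
    have := ((hasDerivAt_id x).sub_const s).const_mul 2
    refine HasDerivAt.congr_deriv this ?_
    simp
  have hp : 0 < 2 * (x - s) := by linarith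
  have h2 := (h1.rpow_const (p := -((m : ℝ) + 1 / 2)) (Or.inl hp.ne')).const_mul (dfac m : ℝ)
  refine HasDerivAt.congr_deriv h2 ?_
  unfold GG
  have e : (-((m : ℝ) + 1 / 2) - 1) = -(((m + 1 : ℕ) : ℝ) + 1 / 2) := by push_cast; ring
  rw [e, dfac]
  push_cast
  ring

/-- expansion of the kernels -/
theorem GG_eq_tsum {s : ℝ} (hs : |s| ≤ 1) (m : ℕ) : ∀ x : ℝ, 1 < x →
    GG s m x = ∑' k, leg s k * D k x m := by
  induction m with
  | zero =>
    intro x hx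
    have hr0 := rh_pos hx.le
    have hr1 := rh_lt_one hx
    have h := leg_gen hs (ρ := rh x) (by rw [abs_of_pos hr0]; exact hr1)
    have e1 : ∑' k, leg s k * D k x 0 = Real.sqrt (rh x) * ∑' k, leg s k * rh x ^ k := by
      rw [← tsum_mul_left]
      refine tsum_congr fun k => ?_
      show leg s k * (rh x ^ k * Real.sqrt (rh x)) = _
      ring
    have e2 : 1 - 2 * rh x * s + rh x ^ 2 = rh x * (2 * (x - s)) := by
      have := rh_mul hx.le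
      have h4 : sg x = x - rh x := by unfold rh; ring
      rw [h4] at this
      linarith
    have hp : 0 < 2 * (x - s) := by linarith [(abs_le.mp hs).2]
    rw [e1, h, e2, GG, Real.mul_rpow hr0.le hp.le, Real.sqrt_eq_rpow, ← mul_assoc,
      ← Real.rpow_add hr0]
    simp [dfac]
  | succ m ih =>
    intro x hx
    have h1 := hasDerivAt_GG (s := s) (x := x) (by linarith [(abs_le.mp hs).2]) m
    have h2 := hasDerivAt_tsum_D (abs_leg_le_one s hs) hx m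
    have h3 : GG s m =ᶠ[nhds x] fun y => ∑' k, leg s k * D k y m := by
      filter_upwards [Ioi_mem_nhds hx] with y hy
      exact ih y hy
    have h4 := (h2.congr_of_eventuallyEq h3).unique h1
    linarith

end Pool.Agent.Helper858.Der
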