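import Mathlib
import Pool.Agent.Helper858.Der

namespace Pool.Agent.Helper858.Test

open Pool.Agent.Helper858.Leg Pool.Agent.Helper858.Gen Pool.Agent.Helper858.Der Set Filter Topology

/-- perturbed reverse Bessel polynomials -/
noncomputable def th (z x σ : ℝ) : ℕ → ℝ
  | 0 => 1
  | 1 => z + x
  | (n + 2) => (2 * (n : ℝ) + 3) * x * th z x σ (n + 1) +
      (z ^ 2 - ((n : ℝ) + 1) ^ 2 * σ ^ 2) * th z x σ n

lemma D_th (k : ℕ) {x : ℝ} (hx : 1 < x) : ∀ n : ℕ,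
    sg x ^ (2 * n + 1) * D k x (n + 1) =
      ((k : ℝ) + 1 / 2) * th (((k : ℝ) + 1 / 2) * sg x) x (sg x) n * EE k x
  | 0 => by
    have hs := (sg_pos hx).ne'
    show sg x ^ 1 * (((k : ℝ) + 1 / 2) * EE k x / sg x) = ((k : ℝ) + 1 / 2) * 1 * EE k x
    field_simp
  | 1 => by
    have hs := (sg_pos hx).ne'
    have h2 : x ^ 2 - 1 = sg x ^ 2 := (sg_sq hx.le).symm
    show sg x ^ 3 * (((2 * ((0 : ℕ) : ℝ) + 1) * x * (((k : ℝ) + 1 / 2) * EE k x / sg x) +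
      (((k : ℝ) + 1 / 2) ^ 2 - ((0 : ℕ) : ℝ) ^ 2) * EE k x) / (x ^ 2 - 1)) =
      ((k : ℝ) + 1 / 2) * (((k : ℝ) + 1 / 2) * sg x + x) * EE k x
    rw [h2]
    push_cast
    field_simp
    ring
  | (n + 2) => by
    have ih1 := D_th k hx (n + 1)
    have ih0 := D_th k hx n
    have h2 : x ^ 2 - 1 = sg x ^ 2 := (sg_sq hx.le).symm
    have hs := (sg_pos hx).ne'
    have e : D k x (n + 2 + 1) * sg x ^ 2 = (2 * ((n + 1 : ℕ) : ℝ) + 1) * x * D k x (n + 2) +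
      (((k : ℝ) + 1 / 2) ^ 2 - ((n + 1 : ℕ) : ℝ) ^ 2) * D k x (n + 1) := by
      show D k x (n + 1 + 2) * sg x ^ 2 = _
      rw [← h2, D, div_mul_cancel₀ _ (by rw [h2]; positivity)]
    push_cast at e
    rw [th]
    have e2 : sg x ^ (2 * (n + 2) + 1) * D k x (n + 2 + 1) =
      sg x ^ (2 * n + 3) * (D k x (n + 2 + 1) * sg x ^ 2) := by ring
    rw [e2, e]
    have ih1' : sg x ^ (2 * n + 3) * D k x (n + 2) =
      ((k : ℝ) + 1 / 2) * th (((k : ℝ) + 1 / 2) * sg x) x (sg x) (n + 1) * EE k x := ih1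
    linear_combination ((2 * (n : ℝ) + 3) * x) * ih1' +
      (((k : ℝ) + 1 / 2) ^ 2 - ((n : ℝ) + 1) ^ 2) * sg x ^ 2 * ih0

/-- coefficients of the test function -/
def bc : ℕ → ℤ
  | 0 => 14662579067136
  | 1 => -592386296261760
  | 2 => 4689580281225840
  | 3 => -9981081609642000
  | 4 => 8067117855225000
  | 5 => -2909820395625000
  | 6 => 506474724609375
  | 7 => -43242255859375
  | 8 => 1707031250000
  | 9 => -24414062500
  | _ => 0

/-- the symbol of the test function -/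
noncomputable def Th (z x σ : ℝ) : ℝ := ∑ n ∈ Finset.range 10, (bc n : ℝ) * th z x σ n

/-- the test function -/
noncomputable def fT (s x : ℝ) : ℝ :=
  ∑ n ∈ Finset.range 10, (bc n : ℝ) * (sg x ^ (2 * n + 3) * GG s (n + 1) x)

/-- the polynomial `B` -/
noncomputable def BP (v : ℝ) : ℝ := 26189163 * ((27 - 25 * v) * (50 * v - 1) ^ 2 *
  (25 * v - 4) ^ 2 * (5 * v - 2) ^ 2 * (25 * v - 18) ^ 2)

lemma BP_eq (v : ℝ) : BP v = ∑ n ∈ Finset.range 10, (bc n : ℝ) * (dfac (n + 1) : ℝ) * v ^ n := by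
  simp only [Finset.sum_range_succ, Finset.sum_range_zero, bc, dfac, BP]
  push_cast
  ring

lemma fT_eq {s x : ℝ} (hx : 1 < x) (hs : s ≤ 1) :
    fT s x = (sg x ^ 2 / (2 * (x - s))) ^ (3 / 2 : ℝ) * BP (sg x ^ 2 / (2 * (x - s))) := by
  have hp : 0 < 2 * (x - s) := by linarith
  have hσ := sg_pos hx
  set v := sg x ^ 2 / (2 * (x - s)) with hv
  have hvp : 0 < v := by positivity
  rw [BP_eq, Finset.mul_sum, fT]
  refine Finset.sum_congr rfl fun n _ => ?_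
  unfold GG
  have e1 : sg x ^ (2 * n + 3) = (sg x ^ 2) ^ (((n + 1 : ℕ) : ℝ) + 1 / 2) := by
    rw [← Real.rpow_natCast (sg x) 2, ← Real.rpow_mul hσ.le, ← Real.rpow_natCast]
    congr 1
    push_cast; ring
  have e2 : v ^ (3 / 2 : ℝ) * v ^ n = v ^ (((n + 1 : ℕ) : ℝ) + 1 / 2) := by
    rw [← Real.rpow_natCast v n, ← Real.rpow_add hvp]
    congr 1
    push_cast; ring
  have e3 : v ^ (((n + 1 : ℕ) : ℝ) + 1 / 2) =
      (sg x ^ 2) ^ (((n + 1 : ℕ) : ℝ) + 1 / 2) * (2 * (x - s)) ^ (-(((n + 1 : ℕ) : ℝ) + 1 / 2)) := by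
    rw [hv, Real.div_rpow (by positivity) hp.le, Real.rpow_neg hp.le, div_eq_mul_inv]
  calc (bc n : ℝ) * (sg x ^ (2 * n + 3) * ((dfac (n + 1) : ℝ) *
      (2 * (x - s)) ^ (-(((n + 1 : ℕ) : ℝ) + 1 / 2))))
      = (bc n : ℝ) * (dfac (n + 1) : ℝ) * ((sg x ^ 2) ^ (((n + 1 : ℕ) : ℝ) + 1 / 2) *
        (2 * (x - s)) ^ (-(((n + 1 : ℕ) : ℝ) + 1 / 2))) := by rw [e1]; ring
    _ = (bc n : ℝ) * (dfac (n + 1) : ℝ) * (v ^ (3 / 2 : ℝ) * v ^ n) := by rw [e2, e3]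
    _ = _ := by ring

lemma fT_nonneg {s x : ℝ} (hx : 1 < x) (hx2 : x ≤ 29 / 25) (hs : s ≤ 1) : 0 ≤ fT s x := by
  rw [fT_eq hx hs]
  have hp : 0 < 2 * (x - s) := by linarith
  have hσ := sg_sq hx.le
  have hv : sg x ^ 2 / (2 * (x - s)) ≤ 27 / 25 := by
    rw [div_le_iff₀ hp, hσ]
    nlinarith
  apply mul_nonneg (by positivity)
  unfold BP
  have : 0 ≤ 27 - 25 * (sg x ^ 2 / (2 * (x - s))) := by linarith
  positivity

lemma fT_one {x : ℝ} (hx : 1 < x) :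
    fT 1 x = ((x + 1) / 2) ^ (3 / 2 : ℝ) * BP ((x + 1) / 2) := by
  rw [fT_eq hx le_rfl]
  have : sg x ^ 2 / (2 * (x - 1)) = (x + 1) / 2 := by
    rw [sg_sq hx.le, div_eq_div_iff (by linarith) (by norm_num)]
    ring
  rw [this]

/-- the Legendre coefficients of the test function -/
noncomputable def cf (k : ℕ) (x : ℝ) : ℝ :=
  sg x ^ 2 * (((k : ℝ) + 1 / 2) * EE k x * Th (((k : ℝ) + 1 / 2) * sg x) x (sg x))

lemma cf_eq (k : ℕ) {x : ℝ} (hx : 1 < x) :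
    cf k x = ∑ n ∈ Finset.range 10, (bc n : ℝ) * (sg x ^ (2 * n + 3) * D k x (n + 1)) := by
  unfold cf Th
  rw [Finset.mul_sum, Finset.mul_sum]
  refine Finset.sum_congr rfl fun n _ => ?_
  have h := D_th k hx n
  have e : sg x ^ (2 * n + 3) * D k x (n + 1) = sg x ^ 2 * (sg x ^ (2 * n + 1) * D k x (n + 1)) := by
    ring
  rw [e, h]; ring

lemma summable_cf {a : ℕ → ℝ} (ha : ∀ k, |a k| ≤ 1) {x : ℝ} (hx : 1 < x) :
    Summable (fun k => a k * cf k x) := by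
  have : (fun k => a k * cf k x) = fun k => ∑ n ∈ Finset.range 10,
      ((bc n : ℝ) * sg x ^ (2 * n + 3)) * (a k * D k x (n + 1)) := by
    funext k
    rw [cf_eq k hx, Finset.mul_sum]
    refine Finset.sum_congr rfl fun n _ => by ring
  rw [this]
  exact summable_sum fun n _ => (summable_D ha hx (n + 1)).mul_left _

lemma fT_tsum {s x : ℝ} (hx : 1 < x) (hs : |s| ≤ 1) : fT s x = ∑' k, leg s k * cf k x := by
  have : (fun k => leg s k * cf k x) = fun k => ∑ n ∈ Finset.range 10,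
      ((bc n : ℝ) * sg x ^ (2 * n + 3)) * (leg s k * D k x (n + 1)) := by
    funext k
    rw [cf_eq k hx, Finset.mul_sum]
    refine Finset.sum_congr rfl fun n _ => by ring
  rw [this, Summable.tsum_finsetSum
    (fun n _ => (summable_D (abs_leg_le_one s hs) hx (n + 1)).mul_left _)]
  unfold fT
  refine Finset.sum_congr rfl fun n _ => ?_
  rw [tsum_mul_left, GG_eq_tsum hs (n + 1) x hx]
  ring

end Pool.Agent.Helper858.Test
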