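import Mathlib
import Pool.Agent.Helper858.Test

namespace Pool.Agent.Helper858.Asym

open Pool.Agent.Helper858.Leg Pool.Agent.Helper858.Gen Pool.Agent.Helper858.Der
  Pool.Agent.Helper858.Test Set Filter Topology

noncomputable def et (w x σ : ℝ) : ℕ → ℝ
  | 0 => 1
  | 1 => 1 + x * w
  | (n + 2) => (2 * (n : ℝ) + 3) * (x * w) * et w x σ (n + 1) +
      (1 - ((n : ℝ) + 1) ^ 2 * σ ^ 2 * w ^ 2) * et w x σ n

lemma th_et {w : ℝ} (hw : w ≠ 0) (x σ : ℝ) : ∀ n : ℕ, th (1 / w) x σ n * w ^ n = et w x σ n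
  | 0 => by simp [th, et]
  | 1 => by
    simp only [th, et]
    field_simp
  | (n + 2) => by
    rw [th, et, ← th_et hw x σ (n + 1), ← th_et hw x σ n]
    field_simp
    ring

noncomputable def HH (w x σ : ℝ) : ℝ :=
  ∑ n ∈ Finset.range 10, (bc n : ℝ) * (w ^ (9 - n) * et w x σ n)

lemma Th_HH {w : ℝ} (hw : w ≠ 0) (x σ : ℝ) : Th (1 / w) x σ * w ^ 9 = HH w x σ := by
  unfold Th HH
  rw [Finset.sum_mul]
  refine Finset.sum_congr rfl fun n hn => ?_
  rw [← th_et hw x σ n]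
  have : n ≤ 9 := by
    have := Finset.mem_range.mp hn
    omega
  have e : w ^ 9 = w ^ (9 - n) * w ^ n := by rw [← pow_add]; congr 1; omega
  rw [e]; ring

lemma continuous_et (n : ℕ) : Continuous (fun p : ℝ × ℝ × ℝ => et p.1 p.2.1 p.2.2 n) := by
  induction n using Nat.twoStepInduction with
  | zero => simp only [et]; fun_prop
  | one => simp only [et]; fun_prop
  | more n ih1 ih2 => simp only [et]; fun_prop

lemma continuous_th (n : ℕ) : Continuous (fun p : ℝ × ℝ × ℝ => th p.1 p.2.1 p.2.2 n) := by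
  induction n using Nat.twoStepInduction with
  | zero => simp only [th]; fun_prop
  | one => simp only [th]; fun_prop
  | more n ih1 ih2 => simp only [th]; fun_prop

lemma continuous_HH : Continuous (fun p : ℝ × ℝ × ℝ => HH p.1 p.2.1 p.2.2) := by
  unfold HH
  exact continuous_finsetSum _ fun n _ => by
    have := continuous_et n
    fun_prop

lemma continuous_Th : Continuous (fun p : ℝ × ℝ × ℝ => Th p.1 p.2.1 p.2.2) := by
  unfold Th
  exact continuous_finsetSum _ fun n _ => by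
    have := continuous_th n
    fun_prop

lemma HH_neg {w : ℝ} (h0 : 0 ≤ w) (h1 : w ≤ 5 / 62) : HH w 1 0 < 0 := by
  have e : HH w 1 0 = - (65147082543806948 / 5 * w ^ 9
      + 6452950485913578168 * (1 - 62 / 5 * w) * w ^ 8
      + 4279715414272523185 * (1 - 62 / 5 * w) ^ 2 * w ^ 7
      + 1276288003081153875 * (1 - 62 / 5 * w) ^ 3 * w ^ 6
      + 222407399113368750 * (1 - 62 / 5 * w) ^ 4 * w ^ 5
      + 24662407604609375 * (1 - 62 / 5 * w) ^ 5 * w ^ 4
      + 1775246560546875 * (1 - 62 / 5 * w) ^ 6 * w ^ 3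
      + 80746552734375 * (1 - 62 / 5 * w) ^ 7 * w ^ 2
      + 2116210937500 * (1 - 62 / 5 * w) ^ 8 * w
      + 24414062500 * (1 - 62 / 5 * w) ^ 9) := by
    simp only [HH, Finset.sum_range_succ, Finset.sum_range_zero, bc, et]
    push_cast
    ring
  rw [e, neg_lt_zero]
  have hu : 0 ≤ 1 - 62 / 5 * w := by linarith
  rcases eq_or_lt_of_le h0 with h | h
  · rw [← h]; norm_num
  · positivity

lemma Th_zero : Th 0 1 0 = 1204874539852896 := by
  simp only [Th, Finset.sum_range_succ, Finset.sum_range_zero, bc, th]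
  norm_num

lemma BP_one : BP 1 = 24458000714353206 := by
  unfold BP; norm_num

/-- `x = √(1+σ²)` -/
noncomputable def xs (σ : ℝ) : ℝ := Real.sqrt (1 + σ ^ 2)

lemma continuous_xs : Continuous xs := by unfold xs; fun_prop

lemma xs_zero : xs 0 = 1 := by unfold xs; simp

lemma xs_gt {σ : ℝ} (hσ : 0 < σ) : 1 < xs σ := by
  unfold xs
  rw [Real.lt_sqrt (by norm_num)]
  nlinarith

lemma sg_xs {σ : ℝ} (hσ : 0 ≤ σ) : sg (xs σ) = σ := by
  unfold sg xs
  rw [Real.sq_sqrt (by positivity)]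
  simp [Real.sqrt_sq hσ]

lemma continuous_BP : Continuous BP := by unfold BP; fun_prop

attribute [local irreducible] HH Th BP

lemma ev_neg : ∀ᶠ σ in 𝓝 (0 : ℝ), ∀ z, 62 / 5 ≤ z → Th z (xs σ) σ ≤ 0 := by
  have hopen : IsOpen {p : ℝ × ℝ × ℝ | HH p.1 p.2.1 p.2.2 < 0} :=
    isOpen_lt continuous_HH continuous_const
  obtain ⟨u, v, _, hv, hsu, htv, huv⟩ := generalized_tube_lemma
    (isCompact_Icc (a := (0 : ℝ)) (b := 5 / 62)) (isCompact_singleton (x := ((1 : ℝ), (0 : ℝ))))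
    hopen (by
      rintro ⟨w, q⟩ ⟨hw, hq⟩
      rw [mem_singleton_iff] at hq
      simp only at hq
      subst hq
      exact HH_neg hw.1 hw.2)
  have hc : Continuous (fun σ : ℝ => (xs σ, σ)) := by
    have := continuous_xs
    fun_prop
  have hmem : (xs 0, (0 : ℝ)) ∈ v := by
    rw [xs_zero]; exact htv (mem_singleton _)
  have := hc.continuousAt.preimage_mem_nhds (hv.mem_nhds hmem)
  filter_upwards [this] with σ hσ z hz
  have hz0 : 0 < z := by linarith
  have hw : 1 / z ∈ Icc (0 : ℝ) (5 / 62) := by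
    constructor
    · positivity
    · rw [div_le_div_iff₀ hz0 (by norm_num)]; linarith
  have h1 : HH (1 / z) (xs σ) σ < 0 := huv (mk_mem_prod (hsu hw) hσ)
  have h2 := Th_HH (w := 1 / z) (by positivity) (xs σ) σ
  rw [one_div_one_div] at h2
  rw [← h2] at h1
  have h3 : 0 < (1 / z) ^ 9 := by positivity
  by_contra hcon
  push Not at hcon
  have := mul_pos hcon h3
  linarith

lemma ev_bound : ∃ C : ℝ, 0 < C ∧ ∀ σ ∈ Icc (0 : ℝ) 1, ∀ z ∈ Icc (0 : ℝ) (62 / 5),
    Th z (xs σ) σ ≤ C := by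
  have hc : Continuous (fun p : ℝ × ℝ => Th p.1 (xs p.2) p.2) := by
    have h1 := continuous_Th
    have h2 := continuous_xs
    exact h1.comp (by fun_prop : Continuous (fun p : ℝ × ℝ => (p.1, xs p.2, p.2)))
  have hK : IsCompact (Icc (0 : ℝ) (62 / 5) ×ˢ Icc (0 : ℝ) 1) := isCompact_Icc.prod isCompact_Icc
  obtain ⟨C, hC⟩ := hK.exists_bound_of_continuousOn hc.continuousOn
  refine ⟨|C| + 1, by positivity, fun σ hσ z hz => ?_⟩
  have := hC (z, σ) (mk_mem_prod hz hσ)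
  simp only at this
  calc Th z (xs σ) σ ≤ ‖Th z (xs σ) σ‖ := le_abs_self _
    _ ≤ C := this
    _ ≤ |C| := le_abs_self _
    _ ≤ |C| + 1 := by linarith

/-- the gain -/
noncomputable def gain (σ : ℝ) : ℝ :=
  ((xs σ + 1) / 2) ^ (3 / 2 : ℝ) * BP ((xs σ + 1) / 2) * ((487 / 250) ^ 2 / (62 / 5) ^ 2)
    - 1 / 2 * |Th (σ / 2) (xs σ) σ|

lemma continuous_gain : ContinuousAt gain 0 := by
  have h1 := continuous_Th
  have h2 := continuous_xs
  have h3 : Continuous (fun σ : ℝ => Th (σ / 2) (xs σ) σ) :=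
    h1.comp (by fun_prop : Continuous (fun σ : ℝ => (σ / 2, xs σ, σ)))
  have h4 : Continuous (fun σ : ℝ => BP ((xs σ + 1) / 2)) := by
    have := continuous_BP
    exact this.comp (by fun_prop : Continuous (fun σ : ℝ => (xs σ + 1) / 2))
  have h5 : Continuous (fun σ : ℝ => ((xs σ + 1) / 2) ^ (3 / 2 : ℝ)) := by
    apply Continuous.rpow_const (by fun_prop)
    intro x; right; norm_num
  unfold gain
  exact (((h5.mul h4).mul continuous_const).sub (continuous_const.mul h3.abs)).continuousAt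

lemma gain_zero : 1000000000000 < gain 0 := by
  unfold gain
  rw [xs_zero, zero_div, Th_zero]
  norm_num [BP_one]

theorem exists_consts : ∃ δ : ℝ, 0 < δ ∧ ∃ c1 : ℝ, 0 < c1 ∧ ∃ C : ℝ, 0 < C ∧
    ∀ σ : ℝ, 0 < σ → σ < δ → xs σ ≤ 29 / 25 ∧ (∀ z, 62 / 5 ≤ z → Th z (xs σ) σ ≤ 0) ∧
      (∀ z ∈ Icc (0 : ℝ) (62 / 5), Th z (xs σ) σ ≤ C) ∧ c1 ≤ gain σ := by
  obtain ⟨C, hC, hb⟩ := ev_bound
  have h1 : ∀ᶠ σ in 𝓝 (0 : ℝ), xs σ < 29 / 25 := by
    have := continuous_xs.continuousAt (x := 0)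
    have h0 : xs 0 < 29 / 25 := by rw [xs_zero]; norm_num
    exact this.eventually_lt_const h0
  have h2 : ∀ᶠ σ in 𝓝 (0 : ℝ), 1000000000000 < gain σ :=
    continuous_gain.eventually_const_lt gain_zero
  have h3 := (h1.and h2).and ev_neg
  rw [Metric.eventually_nhds_iff] at h3
  obtain ⟨ε, hε, h⟩ := h3
  refine ⟨min ε 1, by positivity, 1000000000000, by norm_num, C, hC, fun σ h0 hσ => ?_⟩
  have hd : dist σ 0 < ε := by
    rw [Real.dist_eq, sub_zero, abs_of_pos h0]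
    exact lt_of_lt_of_le hσ (min_le_left _ _)
  obtain ⟨⟨a1, a2⟩, a3⟩ := h hd
  refine ⟨a1.le, a3, fun z hz => hb σ ⟨h0.le, (hσ.le.trans (min_le_right _ _))⟩ z hz, a2.le⟩

end Pool.Agent.Helper858.Asym
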