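import Mathlib
import Pool.Agent.Helper858.Asym

namespace Pool.Agent.Helper858.Core

open Pool.Agent.Helper858.Leg Pool.Agent.Helper858.Gen Pool.Agent.Helper858.Der
  Pool.Agent.Helper858.Test Pool.Agent.Helper858.Asym Set Filter Topology

lemma leg_gen_deriv {s r : ℝ} (hs : |s| ≤ 1) (hr : |r| < 1) :
    ∑' k, leg s k * ((k : ℝ) * r ^ (k - 1)) = (s - r) * (1 - 2 * r * s + r ^ 2) ^ (-(3 / 2) : ℝ) := by
  have h1 := hasDerivAt_pow_tsum (abs_leg_le_one s hs) hr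
  have hw := w_pos hs hr
  have h2 : HasDerivAt (fun x : ℝ => 1 - 2 * x * s + x ^ 2) (- 2 * s + 2 * r) r := by
    have := (((hasDerivAt_id r).const_mul 2).mul_const s).const_sub 1 |>.add (hasDerivAt_pow 2 r)
    refine HasDerivAt.congr_deriv this ?_
    simp
  have h3 := h2.rpow_const (p := (-(1/2) : ℝ)) (Or.inl hw.ne')
  have h4 : (fun x => ∑' k, leg s k * x ^ k) =ᶠ[𝓝 r]
      fun x : ℝ => (1 - 2 * x * s + x ^ 2) ^ (-(1/2) : ℝ) := by
    have : Ioo (-1 : ℝ) 1 ∈ 𝓝 r := Ioo_mem_nhds (abs_lt.mp hr).1 (abs_lt.mp hr).2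
    filter_upwards [this] with x hx
    exact leg_gen hs (abs_lt.mpr hx)
  have h5 := (h1.congr_of_eventuallyEq h4.symm).unique h3
  rw [h5]
  have e : (-(1 / 2) - 1 : ℝ) = -(3 / 2) := by norm_num
  rw [e]; ring

section
variable {ι : Type*} [Fintype ι] (y : ι → Fin 3 → ℝ)

/-- Gram matrix -/
noncomputable def gr (i j : ι) : ℝ := ∑ m, y i m * y j m

lemma gr_self (hy : ∀ j, ∑ m, y j m ^ 2 = 1) (i : ι) : gr y i i = 1 := by
  have := hy i
  simpa [gr, pow_two] using this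

lemma abs_gr_le (hy : ∀ j, ∑ m, y j m ^ 2 = 1) (i j : ι) : |gr y i j| ≤ 1 := by
  have h1 := hy i
  have h2 := hy j
  unfold gr
  simp only [Fin.sum_univ_three] at *
  rw [abs_le]
  constructor
  · nlinarith [sq_nonneg (y i 0 + y j 0), sq_nonneg (y i 1 + y j 1), sq_nonneg (y i 2 + y j 2)]
  · nlinarith [sq_nonneg (y i 0 - y j 0), sq_nonneg (y i 1 - y j 1), sq_nonneg (y i 2 - y j 2)]

/-- moments -/
noncomputable def A (k : ℕ) : ℝ := (∑ i, ∑ j, leg (gr y i j) k) / (Fintype.card ι : ℝ) ^ 2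

lemma A_nonneg (hy : ∀ j, ∑ m, y j m ^ 2 = 1) (k : ℕ) : 0 ≤ A y k := by
  have := leg_posdef y hy (fun _ => 1) k
  simp only [one_mul] at this
  unfold A gr
  positivity

lemma A_le_one (hy : ∀ j, ∑ m, y j m ^ 2 = 1) (k : ℕ) : A y k ≤ 1 := by
  unfold A
  apply div_le_one_of_le₀ _ (by positivity)
  calc ∑ i, ∑ j, leg (gr y i j) k ≤ ∑ i : ι, ∑ j : ι, (1 : ℝ) := by
        gcongr with i _ j _
        exact (abs_le.mp (abs_leg_le_one _ (abs_gr_le y hy i j) k)).2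
    _ = (Fintype.card ι : ℝ) ^ 2 := by simp [pow_two]

lemma abs_A_le (hy : ∀ j, ∑ m, y j m ^ 2 = 1) (k : ℕ) : |A y k| ≤ 1 := by
  rw [abs_of_nonneg (A_nonneg y hy k)]; exact A_le_one y hy k

lemma A_zero [Nonempty ι] : A y 0 = 1 := by
  unfold A
  simp only [leg]
  simp
  field_simp

lemma avg_tsum (f : ℕ → ℝ) (hf : ∀ i j, Summable (fun k => leg (gr y i j) k * f k)) :
    (∑ i, ∑ j, ∑' k, leg (gr y i j) k * f k) / (Fintype.card ι : ℝ) ^ 2 = ∑' k, A y k * f k := by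
  have h1 : ∀ i, ∑ j, ∑' k, leg (gr y i j) k * f k = ∑' k, ∑ j, leg (gr y i j) k * f k :=
    fun i => (Summable.tsum_finsetSum (fun j _ => hf i j)).symm
  simp only [h1]
  rw [← Summable.tsum_finsetSum (fun i _ => summable_sum fun j _ => hf i j), ← tsum_div_const]
  refine tsum_congr fun k => ?_
  unfold A
  simp only [← Finset.sum_mul]
  ring

/-- the mean radial field at radius `r` -/
noncomputable def Q (r : ℝ) : ℝ :=
  (∑ i, ∑ j, (gr y i j - r) * (1 - 2 * r * gr y i j + r ^ 2) ^ (-(3 / 2) : ℝ)) /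
    (Fintype.card ι : ℝ) ^ 2

lemma Q_eq (hy : ∀ j, ∑ m, y j m ^ 2 = 1) {r : ℝ} (hr : |r| < 1) :
    Q y r = ∑' k, A y k * ((k : ℝ) * r ^ (k - 1)) := by
  rw [← avg_tsum y (fun k => (k : ℝ) * r ^ (k - 1))
    (fun i j => summable_bdd' (abs_leg_le_one _ (abs_gr_le y hy i j)) hr)]
  unfold Q
  congr 1
  refine Finset.sum_congr rfl fun i _ => Finset.sum_congr rfl fun j _ => ?_
  rw [leg_gen_deriv (abs_gr_le y hy i j) hr]

lemma Q_lower (hy : ∀ j, ∑ m, y j m ^ 2 = 1) {r : ℝ} (h0 : 0 < r) (h1 : r < 1) (t : ℕ) :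
    r ^ (t - 1) * ∑ k ∈ Finset.range t, ((k : ℝ) + 1) * A y (k + 1) ≤ Q y r := by
  have hr : |r| < 1 := by rw [abs_of_pos h0]; exact h1
  rw [Q_eq y hy hr]
  have S := summable_bdd' (abs_A_le y hy) hr
  have h := S.sum_le_tsum (Finset.range (t + 1)) (fun k _ => by
    have := A_nonneg y hy k
    positivity)
  refine le_trans ?_ h
  rw [Finset.sum_range_succ', Finset.mul_sum]
  simp only [Nat.cast_zero, zero_mul, mul_zero, add_zero, Nat.add_sub_cancel]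
  refine Finset.sum_le_sum fun k hk => ?_
  have hk' : k ≤ t - 1 := by
    have := Finset.mem_range.mp hk
    omega
  have h2 : r ^ (t - 1) ≤ r ^ k := pow_le_pow_of_le_one h0.le h1.le hk'
  have h3 := A_nonneg y hy (k + 1)
  calc r ^ (t - 1) * (((k : ℝ) + 1) * A y (k + 1)) ≤ r ^ k * (((k : ℝ) + 1) * A y (k + 1)) := by
        gcongr
    _ = A y (k + 1) * (((k + 1 : ℕ) : ℝ) * r ^ k) := by push_cast; ring

lemma test_ineq [Nonempty ι] (hy : ∀ j, ∑ m, y j m ^ 2 = 1) {x : ℝ} (hx : 1 < x)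
    (hx2 : x ≤ 29 / 25) : fT 1 x / (Fintype.card ι : ℝ) ≤ ∑' k, A y k * cf k x := by
  have hN : (0 : ℝ) < Fintype.card ι := by exact_mod_cast Fintype.card_pos
  rw [← avg_tsum y (fun k => cf k x)
    (fun i j => summable_cf (abs_leg_le_one _ (abs_gr_le y hy i j)) hx)]
  have h1 : ∀ i j, ∑' k, leg (gr y i j) k * cf k x = fT (gr y i j) x :=
    fun i j => (fT_tsum hx (abs_gr_le y hy i j)).symm
  simp only [h1]
  have h2 : (Fintype.card ι : ℝ) * fT 1 x ≤ ∑ i, ∑ j, fT (gr y i j) x := by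
    calc (Fintype.card ι : ℝ) * fT 1 x = ∑ i : ι, fT (gr y i i) x := by
          simp [gr_self y hy]
      _ ≤ ∑ i, ∑ j, fT (gr y i j) x := by
          refine Finset.sum_le_sum fun i _ => ?_
          exact Finset.single_le_sum (f := fun j => fT (gr y i j) x)
            (fun j _ => fT_nonneg hx hx2 (abs_le.mp (abs_gr_le y hy i j)).2) (Finset.mem_univ i)
  rw [div_le_div_iff₀ hN (by positivity)]
  calc fT 1 x * (Fintype.card ι : ℝ) ^ 2 = ((Fintype.card ι : ℝ) * fT 1 x) * (Fintype.card ι : ℝ) := by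
        ring
    _ ≤ _ := by gcongr

lemma EE_le_one (k : ℕ) {x : ℝ} (hx : 1 < x) : EE k x ≤ 1 := by
  unfold EE
  have h1 := rh_pos hx.le
  have h2 := rh_lt_one hx
  have h3 : rh x ^ k ≤ 1 := pow_le_one₀ h1.le h2.le
  have h4 : Real.sqrt (rh x) ≤ 1 := by rw [Real.sqrt_le_one]; exact h2.le
  calc rh x ^ k * Real.sqrt (rh x) ≤ 1 * 1 := by gcongr
    _ = 1 := one_mul 1

lemma moments_lower [Nonempty ι] (hy : ∀ j, ∑ m, y j m ^ 2 = 1) {σ C c1 : ℝ} (hσ : 0 < σ)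
    (hC : 0 < C) (hx2 : xs σ ≤ 29 / 25) (hneg : ∀ z, 62 / 5 ≤ z → Th z (xs σ) σ ≤ 0)
    (hbd : ∀ z ∈ Icc (0 : ℝ) (62 / 5), Th z (xs σ) σ ≤ C) (hgain : c1 ≤ gain σ) (t : ℕ)
    (ht : σ * ((t : ℝ) + 3 / 2) = 62 / 5)
    (hN : (487 / 250 : ℝ) ^ 2 * (Fintype.card ι : ℝ) ≤ (t : ℝ) ^ 2) :
    2 * c1 / (3 * C) ≤ ∑ k ∈ Finset.range t, ((k : ℝ) + 1) * A y (k + 1) := by
  have hx := xs_gt hσ
  have hs := sg_xs hσ.le
  have hNp : (0 : ℝ) < Fintype.card ι := by exact_mod_cast Fintype.card_pos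
  have hmain := test_ineq y hy hx hx2
  have S := summable_cf (abs_A_le y hy) hx
  -- split the series
  have hsplit := S.sum_add_tsum_nat_add (t + 1)
  have htail : ∑' k, A y (k + (t + 1)) * cf (k + (t + 1)) (xs σ) ≤ 0 := by
    refine tsum_nonpos fun k => ?_
    refine mul_nonpos_of_nonneg_of_nonpos (A_nonneg y hy _) ?_
    unfold cf
    rw [hs]
    have hE := EE_pos (k + (t + 1)) hx.le
    have hz : 62 / 5 ≤ (((k + (t + 1) : ℕ) : ℝ) + 1 / 2) * σ := by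
      rw [← ht]
      push_cast
      have : (0 : ℝ) ≤ k := Nat.cast_nonneg k
      nlinarith
    have := hneg _ hz
    have h1 : 0 ≤ σ ^ 2 * ((((k + (t + 1) : ℕ) : ℝ) + 1 / 2) * EE (k + (t + 1)) (xs σ)) := by
      positivity
    calc σ ^ 2 * ((((k + (t + 1) : ℕ) : ℝ) + 1 / 2) * EE (k + (t + 1)) (xs σ) *
          Th ((((k + (t + 1) : ℕ) : ℝ) + 1 / 2) * σ) (xs σ) σ)
        = (σ ^ 2 * ((((k + (t + 1) : ℕ) : ℝ) + 1 / 2) * EE (k + (t + 1)) (xs σ))) *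
          Th ((((k + (t + 1) : ℕ) : ℝ) + 1 / 2) * σ) (xs σ) σ := by ring
      _ ≤ 0 := mul_nonpos_of_nonneg_of_nonpos h1 this
  have hhead : ∑ k ∈ Finset.range (t + 1), A y k * cf k (xs σ) ≤
      σ ^ 2 * (1 / 2 * |Th (σ / 2) (xs σ) σ| +
        C * ∑ k ∈ Finset.range t, ((k : ℝ) + 3 / 2) * A y (k + 1)) := by
    rw [Finset.sum_range_succ', A_zero, one_mul, mul_add, add_comm]
    refine add_le_add ?_ ?_
    · unfold cf
      rw [hs]
      have hE0 := EE_pos 0 hx.le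
      have hE1 := EE_le_one 0 hx
      have e : (((0 : ℕ) : ℝ) + 1 / 2) * σ = σ / 2 := by push_cast; ring
      rw [e]
      refine mul_le_mul_of_nonneg_left ?_ (by positivity)
      calc (((0 : ℕ) : ℝ) + 1 / 2) * EE 0 (xs σ) * Th (σ / 2) (xs σ) σ
          ≤ (((0 : ℕ) : ℝ) + 1 / 2) * EE 0 (xs σ) * |Th (σ / 2) (xs σ) σ| := by
            gcongr; exact le_abs_self _
        _ ≤ (((0 : ℕ) : ℝ) + 1 / 2) * 1 * |Th (σ / 2) (xs σ) σ| := by gcongr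
        _ = 1 / 2 * |Th (σ / 2) (xs σ) σ| := by push_cast; ring
    · rw [Finset.mul_sum, Finset.mul_sum]
      refine Finset.sum_le_sum fun k hk => ?_
      have hkt : (k : ℝ) + 1 ≤ t := by
        have := Finset.mem_range.mp hk
        exact_mod_cast this
      unfold cf
      rw [hs]
      have hE0 := EE_pos (k + 1) hx.le
      have hE1 := EE_le_one (k + 1) hx
      have hA := A_nonneg y hy (k + 1)
      have hz : (((k + 1 : ℕ) : ℝ) + 1 / 2) * σ ∈ Icc (0 : ℝ) (62 / 5) := by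
        constructor
        · positivity
        · rw [← ht]; push_cast; nlinarith
      have hT := hbd _ hz
      have hET : EE (k + 1) (xs σ) * Th ((((k + 1 : ℕ) : ℝ) + 1 / 2) * σ) (xs σ) σ ≤ C := by
        rcases le_or_gt (Th ((((k + 1 : ℕ) : ℝ) + 1 / 2) * σ) (xs σ) σ) 0 with h | h
        · exact (mul_nonpos_of_nonneg_of_nonpos hE0.le h).trans hC.le
        · calc EE (k + 1) (xs σ) * Th ((((k + 1 : ℕ) : ℝ) + 1 / 2) * σ) (xs σ) σ
              ≤ 1 * Th ((((k + 1 : ℕ) : ℝ) + 1 / 2) * σ) (xs σ) σ := by gcongr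
            _ ≤ C := by rw [one_mul]; exact hT
      calc A y (k + 1) * (σ ^ 2 * ((((k + 1 : ℕ) : ℝ) + 1 / 2) * EE (k + 1) (xs σ) *
            Th ((((k + 1 : ℕ) : ℝ) + 1 / 2) * σ) (xs σ) σ))
          = (A y (k + 1) * (σ ^ 2 * (((k + 1 : ℕ) : ℝ) + 1 / 2))) * (EE (k + 1) (xs σ) *
            Th ((((k + 1 : ℕ) : ℝ) + 1 / 2) * σ) (xs σ) σ) := by ring
        _ ≤ (A y (k + 1) * (σ ^ 2 * (((k + 1 : ℕ) : ℝ) + 1 / 2))) * C := by gcongr
        _ = σ ^ 2 * (C * (((k : ℝ) + 3 / 2) * A y (k + 1))) := by push_cast; ring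
  -- lower bound of the left side
  have hfT : 0 ≤ fT 1 (xs σ) := fT_nonneg hx hx2 le_rfl
  have hinv : (487 / 250 : ℝ) ^ 2 / (62 / 5) ^ 2 * σ ^ 2 ≤ 1 / (Fintype.card ι : ℝ) := by
    rw [le_div_iff₀ hNp]
    have h1 : (t : ℝ) ^ 2 ≤ ((t : ℝ) + 3 / 2) ^ 2 := by
      have : (0 : ℝ) ≤ t := Nat.cast_nonneg t
      nlinarith
    have h2 : (487 / 250 : ℝ) ^ 2 * (Fintype.card ι : ℝ) * σ ^ 2 ≤ (62 / 5) ^ 2 := by
      calc (487 / 250 : ℝ) ^ 2 * (Fintype.card ι : ℝ) * σ ^ 2 ≤ ((t : ℝ) + 3 / 2) ^ 2 * σ ^ 2 := by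
            gcongr
            exact hN.trans h1
        _ = (σ * ((t : ℝ) + 3 / 2)) ^ 2 := by ring
        _ = _ := by rw [ht]
    calc (487 / 250 : ℝ) ^ 2 / (62 / 5) ^ 2 * σ ^ 2 * (Fintype.card ι : ℝ)
        = ((487 / 250 : ℝ) ^ 2 * (Fintype.card ι : ℝ) * σ ^ 2) / (62 / 5) ^ 2 := by ring
      _ ≤ (62 / 5) ^ 2 / (62 / 5) ^ 2 := by gcongr
      _ = 1 := by norm_num
  have hL : fT 1 (xs σ) * ((487 / 250 : ℝ) ^ 2 / (62 / 5) ^ 2 * σ ^ 2) ≤
      fT 1 (xs σ) / (Fintype.card ι : ℝ) := by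
    rw [div_eq_mul_one_div (fT 1 (xs σ))]
    gcongr
  have hall : fT 1 (xs σ) * ((487 / 250 : ℝ) ^ 2 / (62 / 5) ^ 2 * σ ^ 2) ≤
      σ ^ 2 * (1 / 2 * |Th (σ / 2) (xs σ) σ| +
        C * ∑ k ∈ Finset.range t, ((k : ℝ) + 3 / 2) * A y (k + 1)) := by linarith
  have hσ2 : 0 < σ ^ 2 := by positivity
  have hall2 : fT 1 (xs σ) * ((487 / 250 : ℝ) ^ 2 / (62 / 5) ^ 2) ≤
      (1 / 2 * |Th (σ / 2) (xs σ) σ| +
        C * ∑ k ∈ Finset.range t, ((k : ℝ) + 3 / 2) * A y (k + 1)) := by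
    refine le_of_mul_le_mul_left ?_ hσ2
    calc σ ^ 2 * (fT 1 (xs σ) * ((487 / 250 : ℝ) ^ 2 / (62 / 5) ^ 2))
        = fT 1 (xs σ) * ((487 / 250 : ℝ) ^ 2 / (62 / 5) ^ 2 * σ ^ 2) := by ring
      _ ≤ _ := hall
  have hg : c1 ≤ C * ∑ k ∈ Finset.range t, ((k : ℝ) + 3 / 2) * A y (k + 1) := by
    unfold gain at hgain
    rw [fT_one hx] at hall2
    linarith
  have hcmp : ∑ k ∈ Finset.range t, ((k : ℝ) + 3 / 2) * A y (k + 1) ≤
      3 / 2 * ∑ k ∈ Finset.range t, ((k : ℝ) + 1) * A y (k + 1) := by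
    rw [Finset.mul_sum]
    refine Finset.sum_le_sum fun k _ => ?_
    have hA := A_nonneg y hy (k + 1)
    have : (0 : ℝ) ≤ k := Nat.cast_nonneg k
    nlinarith [mul_nonneg this hA]
  rw [div_le_iff₀ (by positivity)]
  nlinarith [mul_le_mul_of_nonneg_left hcmp hC.le]

end

/-- the core estimate -/
theorem core : ∃ c : ℝ, 0 < c ∧ ∃ N₀ : ℕ, ∀ N : ℕ, N₀ ≤ N → ∀ y : Fin N → Fin 3 → ℝ,
    (∀ j, ∑ m, y j m ^ 2 = 1) → ∀ r : ℝ, 0 < r → r < 1 →
      c * r ^ ((487 / 250 : ℝ) * Real.sqrt N) ≤ Q y r := by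
  obtain ⟨δ, hδ, c1, hc1, C, hC, h⟩ := exists_consts
  obtain ⟨T, hT⟩ := exists_nat_gt (62 / 5 / δ)
  refine ⟨2 * c1 / (3 * C), by positivity, max 1 (T ^ 2), fun N hN y hy r h0 h1 => ?_⟩
  have hN1 : 1 ≤ N := (le_max_left _ _).trans hN
  have hNT : T ^ 2 ≤ N := (le_max_right _ _).trans hN
  have : Nonempty (Fin N) := ⟨⟨0, hN1⟩⟩
  set t : ℕ := ⌈(487 / 250 : ℝ) * Real.sqrt N⌉₊ with ht
  have ht1 : (487 / 250 : ℝ) * Real.sqrt N ≤ t := Nat.le_ceil _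
  have ht2 : (t : ℝ) < (487 / 250 : ℝ) * Real.sqrt N + 1 := Nat.ceil_lt_add_one (by positivity)
  have hsqT : (T : ℝ) ≤ Real.sqrt N := by
    apply Real.le_sqrt_of_sq_le
    exact_mod_cast hNT
  have htT : (T : ℝ) ≤ t := by
    have : 0 ≤ Real.sqrt N := Real.sqrt_nonneg _
    nlinarith
  have htpos : (0 : ℝ) < (t : ℝ) + 3 / 2 := by positivity
  set σ : ℝ := 62 / 5 / ((t : ℝ) + 3 / 2) with hσdef
  have hσ : 0 < σ := by positivity
  have hσt : σ * ((t : ℝ) + 3 / 2) = 62 / 5 := by rw [hσdef, div_mul_cancel₀ _ htpos.ne']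
  have hσδ : σ < δ := by
    rw [hσdef, div_lt_iff₀ htpos]
    rw [div_lt_iff₀ hδ] at hT
    nlinarith
  obtain ⟨a1, a2, a3, a4⟩ := h σ hσ hσδ
  have hcard : (487 / 250 : ℝ) ^ 2 * (Fintype.card (Fin N) : ℝ) ≤ (t : ℝ) ^ 2 := by
    rw [Fintype.card_fin]
    calc (487 / 250 : ℝ) ^ 2 * (N : ℝ) = ((487 / 250 : ℝ) * Real.sqrt N) ^ 2 := by
          rw [mul_pow, Real.sq_sqrt (Nat.cast_nonneg N)]
      _ ≤ (t : ℝ) ^ 2 := by gcongr
  have hm := moments_lower y hy hσ hC a1 a2 a3 a4 t hσt hcard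
  have hq := Q_lower y hy h0 h1 t
  refine le_trans ?_ hq
  rw [mul_comm]
  have hexp : r ^ ((487 / 250 : ℝ) * Real.sqrt N) ≤ r ^ (t - 1) := by
    rw [← Real.rpow_natCast]
    apply Real.rpow_le_rpow_of_exponent_ge h0 h1.le
    have ht3 : 1 ≤ t := by
      by_contra hcon
      have : t = 0 := by omega
      rw [this] at ht1
      have hs1 : (1 : ℝ) ≤ Real.sqrt N := by
        rw [Real.one_le_sqrt]; exact_mod_cast hN1
      push_cast at ht1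
      nlinarith
    rw [Nat.cast_sub ht3]
    push_cast
    linarith
  gcongr

end Pool.Agent.Helper858.Core
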